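import Pool.Agent.H49.GN2.Nf

/-!
MP_78d38b_GN2 (helper49): the idempotent of a subgroup of odd order.
-/

set_option autoImplicit false
open scoped Classical

namespace H49GN

open H26OD (RG coeff_eq_tau)

variable {G : Type} [Group G] [Finite G]

/-- The sum of the elements of a subgroup. -/
noncomputable def eC (C : Subgroup G) : RG G := H88OD.mk fun g => if g ∈ C then 1 else 0

theorem eC_coeff (C : Subgroup G) (g : G) : (eC C).coeff g = if g ∈ C then 1 else 0 :=
  H88OD.coeff_mk _ g

theorem eC_st (C : Subgroup G) : H26OD.st (eC C) = eC C := by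
  ext g
  rw [H26OD.coeff_st, eC_coeff, eC_coeff]
  exact if_congr inv_mem_iff rfl rfl

theorem eC_tau (C : Subgroup G) : H26OD.tau (eC C) = 1 := by
  change (eC C).coeff 1 = 1
  rw [eC_coeff, if_pos C.one_mem]

theorem eC_odd {C : Subgroup G} (hC : Odd (Nat.card C)) (g : G) (hg : g * g = 1) (hg1 : g ≠ 1) :
    (eC C).coeff g = 0 := by
  rw [eC_coeff, if_neg]
  intro h
  apply hg1
  have h1 : (⟨g, h⟩ : C) ^ 2 = 1 := by
    rw [sq]
    exact Subtype.ext hg
  have h2 : orderOf (⟨g, h⟩ : C) ∣ 2 := orderOf_dvd_of_pow_eq_one h1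
  have h3 : orderOf (⟨g, h⟩ : C) ∣ Nat.card C := orderOf_dvd_natCard _
  rcases (Nat.dvd_prime Nat.prime_two).1 h2 with h4 | h4
  · exact congrArg Subtype.val (orderOf_eq_one_iff.1 h4)
  · exfalso
    rw [h4] at h3
    exact (Nat.not_even_iff_odd.2 hC) (even_iff_two_dvd.2 h3)

theorem mul_eC_coeff (C : Subgroup G) [Fintype C] (a : RG G) (g : G) :
    (a * eC C).coeff g = ∑ c : C, a.coeff (g * c) := by
  induction a using H26OD.rg_induction with
  | h0 =>
    rw [zero_mul]
    exact (Finset.sum_eq_zero fun _ _ => rfl).symm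
  | hof k =>
    rw [coeff_of_mul2, eC_coeff]
    by_cases h : k⁻¹ * g ∈ C
    · rw [if_pos h, Finset.sum_eq_single ⟨(k⁻¹ * g)⁻¹, C.inv_mem h⟩]
      · rw [MonoidAlgebra.of_apply, MonoidAlgebra.coeff_single, Finsupp.single_apply, if_pos]
        change k = g * (k⁻¹ * g)⁻¹
        group
      · intro c _ hc
        rw [MonoidAlgebra.of_apply, MonoidAlgebra.coeff_single, Finsupp.single_apply, if_neg]
        intro h1
        apply hc
        apply Subtype.ext
        change (c : G) = (k⁻¹ * g)⁻¹
        rw [h1]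
        group
      · intro h1
        exact absurd (Finset.mem_univ _) h1
    · rw [if_neg h]
      refine (Finset.sum_eq_zero fun c _ => ?_).symm
      rw [MonoidAlgebra.of_apply, MonoidAlgebra.coeff_single, Finsupp.single_apply, if_neg]
      intro h1
      apply h
      have h2 : k⁻¹ * g = (c : G)⁻¹ := by
        rw [h1]
        group
      rw [h2]
      exact C.inv_mem c.2
  | hadd a b ha hb =>
    rw [add_mul, MonoidAlgebra.coeff_add, Finsupp.add_apply, ha, hb, ← Finset.sum_add_distrib]
    rfl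

theorem odd_smul {n : ℕ} (h : Odd n) (x : ZMod 2) : n • x = x := by
  obtain ⟨k, rfl⟩ := h
  rw [add_smul, one_smul, mul_comm, mul_smul, two_nsmul, CharTwo.add_self_eq_zero, smul_zero,
    zero_add]

theorem mul_eC_iff {C : Subgroup G} (hC : Odd (Nat.card C)) (a : RG G) :
    a * eC C = a ↔ ∀ g, ∀ c ∈ C, a.coeff (g * c) = a.coeff g := by
  let _ : Fintype C := Fintype.ofFinite _
  constructor
  · intro h g c hc
    rw [← h, mul_eC_coeff, mul_eC_coeff]
    refine Fintype.sum_equiv (Equiv.mulLeft (⟨c, hc⟩ : C)) _ _ fun x => ?_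
    change a.coeff (g * c * x) = a.coeff (g * (c * x))
    rw [mul_assoc]
  · intro h
    ext g
    rw [mul_eC_coeff, Finset.sum_congr rfl fun (c : C) _ => h g c c.2, Finset.sum_const, Finset.card_univ,
      ← Nat.card_eq_fintype_card, odd_smul hC]

theorem eC_mul {C H : Subgroup G} (hC : Odd (Nat.card C)) (h : C ≤ H) : eC H * eC C = eC H := by
  rw [mul_eC_iff hC]
  intro g c hc
  rw [eC_coeff, eC_coeff]
  refine if_congr ⟨fun h1 => ?_, fun h1 => H.mul_mem h1 (h hc)⟩ rfl rfl
  have h2 := H.mul_mem h1 (H.inv_mem (h hc))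
  rwa [mul_inv_cancel_right] at h2

theorem eC_mul' {C H : Subgroup G} (hC : Odd (Nat.card C)) (h : C ≤ H) : eC C * eC H = eC H := by
  have h1 := congrArg H26OD.st (eC_mul hC h)
  rwa [H26OD.st_mul, eC_st, eC_st] at h1

theorem eC_idem {C : Subgroup G} (hC : Odd (Nat.card C)) : eC C * eC C = eC C :=
  eC_mul hC le_rfl

theorem card_eC {C : Subgroup G} (hC : Odd (Nat.card C)) :
    Nat.card {a : RG G // a * eC C = a} = 2 ^ C.index := by
  have e : {a : RG G // a * eC C = a} ≃ (G ⧸ C → ZMod 2) := by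
    refine ⟨fun a => Quotient.lift (fun g => (a : RG G).coeff g) ?_,
      fun f => ⟨H88OD.mk fun g => f (g : G ⧸ C), ?_⟩, ?_, ?_⟩
    · intro x y hxy
      have h1 : x⁻¹ * y ∈ C := QuotientGroup.leftRel_apply.1 hxy
      have h2 := (mul_eC_iff hC _).1 a.2 x _ h1
      rw [mul_inv_cancel_left] at h2
      exact h2.symm
    · rw [mul_eC_iff hC]
      intro g c hc
      rw [H88OD.coeff_mk, H88OD.coeff_mk]
      congr 1
      rw [QuotientGroup.eq]
      have : (g * c)⁻¹ * g = c⁻¹ := by group
      rw [this]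
      exact C.inv_mem hc
    · intro a
      apply Subtype.ext
      ext g
      rfl
    · intro f
      funext q
      induction q using Quotient.inductionOn with
      | h g => rfl
  rw [Nat.card_congr e, Nat.card_fun, Nat.card_zmod]
  rfl

theorem e3_idem {C H : Subgroup G} (hC : Odd (Nat.card C)) (hH : Odd (Nat.card H)) (h : C ≤ H) :
    (eC C + eC H) * (eC C + eC H) = eC C + eC H := by
  rw [add_mul, mul_add, mul_add, eC_idem hC, eC_idem hH, eC_mul hC h, eC_mul' hC h, ← add_assoc,
    add_assoc (eC C), H26OD.add_self, add_zero]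

theorem card_e3 {C H : Subgroup G} (hC : Odd (Nat.card C)) (hH : Odd (Nat.card H)) (h : C ≤ H)
    (h3 : Nat.card H = 3 * Nat.card C) :
    Nat.card {a : RG G // a * (eC C + eC H) = a} = 2 ^ (2 * H.index) := by
  have e : {a : RG G // a * eC C = a} ≃
      {a : RG G // a * eC H = a} × {a : RG G // a * (eC C + eC H) = a} := by
    refine ⟨fun a => ⟨⟨a * eC H, ?_⟩, ⟨a * (eC C + eC H), ?_⟩⟩, fun p => ⟨p.1 + p.2, ?_⟩, ?_, ?_⟩
    · rw [mul_assoc, eC_idem hH]
    · rw [mul_assoc, e3_idem hC hH h]
    · have h1 : (p.1 : RG G) * eC C = p.1 := by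
        conv_lhs => rw [← p.1.2, mul_assoc, eC_mul hC h, p.1.2]
      have h2 : (p.2 : RG G) * eC C = p.2 := by
        conv_lhs => rw [← p.2.2, mul_assoc, add_mul, eC_idem hC, eC_mul hC h, p.2.2]
      rw [add_mul, h1, h2]
    · intro a
      apply Subtype.ext
      change (a : RG G) * eC H + a * (eC C + eC H) = a
      rw [mul_add, add_comm _ ((a : RG G) * eC H), ← add_assoc, H26OD.add_self, zero_add, a.2]
    · rintro ⟨⟨a, ha⟩, ⟨b, hb⟩⟩
      have h1 : a * eC C = a := by
        conv_lhs => rw [← ha, mul_assoc, eC_mul hC h, ha]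
      have h2 : b * eC H = 0 := by
        rw [← hb, mul_assoc, add_mul, eC_idem hH, eC_mul' hC h, H26OD.add_self, mul_zero]
      refine Prod.ext (Subtype.ext ?_) (Subtype.ext ?_)
      · change (a + b) * eC H = a
        rw [add_mul, ha, h2, add_zero]
      · change (a + b) * (eC C + eC H) = b
        rw [add_mul, hb, mul_add, h1, ha, H26OD.add_self, zero_add]
  have h1 := Nat.card_congr e
  rw [Nat.card_prod, card_eC hC, card_eC hH] at h1
  have hi : C.index = 3 * H.index := by
    have h4 := C.card_mul_index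
    have h5 := H.card_mul_index
    have h6 : 0 < Nat.card C := Nat.card_pos
    have h7 : Nat.card C * C.index = Nat.card C * (3 * H.index) := by
      rw [h4, ← h5, h3]
      ring
    exact Nat.eq_of_mul_eq_mul_left h6 h7
  rw [hi] at h1
  have h2 : 2 ^ (3 * H.index) = 2 ^ H.index * 2 ^ (2 * H.index) := by
    rw [← pow_add]
    congr 1
    ring
  rw [h2] at h1
  exact (Nat.eq_of_mul_eq_mul_left (by positivity) h1).symm

end H49GN
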