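import Pool.Agent.H49.GN2.Mo

/-!
MP_78d38b_GT (helper49): row I4, the algebra part for cyclic subgroups `C j` of odd order.
-/

set_option autoImplicit false
open scoped Classical

namespace H49GN

open H26GN

variable {G V : Type} [Group G] [Fintype G] [AddCommGroup V] {act : G → V → V} {Y : AddSubgroup V}

theorem tot0 {ι : Type} [Fintype ι] {H : ι → Subgroup G} {m : ι → ℕ}
    {r u : ∀ v, Fin (m v) → V →+ ZMod 2} {v : ι} {a : V} (ha : Yv act H r v a) (y : V) :
    ∑ v, csum act (H v) (fun x y => ∑ j, r v j x * u v j y) a y =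
      ∑ j, r v j (act ((1 : G) : G ⧸ H v).out⁻¹ a) * u v j (act ((1 : G) : G ⧸ H v).out⁻¹ y) := by
  rw [Finset.sum_eq_single v]
  · unfold csum
    let _ := Fintype.ofFinite (G ⧸ H v)
    rw [Finset.sum_eq_single ((1 : G) : G ⧸ H v)]
    · intro q _ hq
      refine Finset.sum_eq_zero fun j _ => ?_
      rw [ha v _ j, zero_mul]
      intro _ h1
      apply hq
      have h2 : q.out ∈ H v := inv_mem_iff.1 h1
      rw [← QuotientGroup.out_eq' q, QuotientGroup.eq]
      rw [mul_one]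
      exact (H v).inv_mem h2
    · intro h1
      exact absurd (Finset.mem_univ _) h1
  · intro v' _ hv
    unfold csum
    refine Finset.sum_eq_zero fun q _ => Finset.sum_eq_zero fun j _ => ?_
    rw [ha v' _ j fun e => absurd e hv, zero_mul]
  · intro h1
    exact absurd (Finset.mem_univ _) h1

/-- The sum over the cosets of a subgroup of odd order. -/
theorem csum_odd (amul : ∀ g h x, act (g * h) x = act g (act h x))
    (stb : ∀ g, ∀ y ∈ Y, act g y ∈ Y) {C : Subgroup G} (hC : Odd (Nat.card C)) {b : V → V → ZMod 2}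
    (hb : ∀ c ∈ C, ∀ x ∈ Y, ∀ y ∈ Y, b (act c x) (act c y) = b x y) {x y : V} (hx : x ∈ Y)
    (hy : y ∈ Y) : csum act C b x y = ∑ g, b (act g x) (act g y) := by
  unfold csum
  let _ : Fintype C := Fintype.ofFinite _
  let _ : Fintype (G ⧸ C) := Fintype.ofFinite _
  rw [sum_cosets C fun g => b (act g x) (act g y)]
  refine Finset.sum_congr rfl fun q _ => ?_
  have h1 : ∀ t : C, b (act (t * q.out⁻¹) x) (act (t * q.out⁻¹) y) =
      b (act q.out⁻¹ x) (act q.out⁻¹ y) := fun t => by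
    rw [amul, amul, hb t t.2 _ (stb _ _ hx) _ (stb _ _ hy)]
  rw [Finset.sum_congr rfl fun t _ => h1 t, Finset.sum_const, Finset.card_univ,
    ← Nat.card_eq_fintype_card, odd_smul hC]

theorem gbal_of_cyc (a1 : ∀ x, act 1 x = x) (amul : ∀ g h x, act (g * h) x = act g (act h x))
    (aadd : ∀ g x y, act g (x + y) = act g x + act g y)
    {W : AddSubgroup V} (stb : ∀ g, ∀ y ∈ Y, act g y ∈ Y)
    {ι : Type} [Fintype ι] {n : ι → ℕ} (hn2 : ∀ j, n j ≤ 2) {m : ℕ} (hm : ∑ j, n j = 2 * m)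
    {C : ι → Subgroup G} (hC : ∀ j, Odd (Nat.card (C j)))
    (hcyc : ∀ j, ∃ σ, C j = Subgroup.zpowers σ)
    (p q : ∀ j, Fin (n j) → (V →+ ZMod 2))
    (hker : ∀ y ∈ Y, (∀ j i g, p j i (act g y) = 0) → y = 0)
    (hcard : 2 ^ (∑ j, n j * (C j).index) ≤ Nat.card Y)
    (hW : ∀ x, x ∈ W ↔ x ∈ Y ∧ ∀ j i g, q j i (act g x) = 0)
    (heq : ∀ j, ∀ c ∈ C j, ∀ i, ∃ A : Fin (n j) → ZMod 2, ∀ x ∈ Y,
      p j i (act c x) = ∑ k, A k * p j k x)
    (hinv : ∀ j, ∀ c ∈ C j, ∀ x ∈ Y, ∀ y ∈ Y,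
      ∑ i, p j i (act c x) * q j i (act c y) = ∑ i, p j i x * q j i y)
    (hQ : ∀ y ∈ Y, ∑ j, ∑ g, ∑ i, p j i (act g y) * q j i (act g y) = 0)
    (hI : ∀ g : G, g * g = 1 → g ≠ 1 → ∀ y ∈ Y,
      ∑ j, ∑ h, ∑ i, p j i (act h y) * q j i (act h (act g y)) = 0) :
    GBal act W := by
  have hcs : ∀ x ∈ Y, ∀ y ∈ Y, ∑ j, csum act (C j) (fun x y => ∑ i, p j i x * q j i y) x y =
      ∑ j, ∑ g, ∑ i, p j i (act g x) * q j i (act g y) := fun x hx y hy =>
    Finset.sum_congr rfl fun j _ => csum_odd amul stb (hC j) (hinv j) hx hy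
  refine Loc2.gbal (act := act) (Y := Y) (W := W) (H := C) (r := p) (u := q)
    { a1 := a1, amul := amul, aadd := aadd, stb := stb, cyc := hcyc, m2 := hn2, kr := ?_, qi := ?_
      ker := fun y hy h => hker y hy fun j i g => h j g i, card := hcard, hW := ?_, tot := ?_
      m1 := fun j _ => hC j, mv := ?_, inv := ?_, par := ?_ }
  · intro j c hc y hy h0 i
    obtain ⟨A, hA⟩ := heq j c hc i
    rw [hA y hy]
    exact Finset.sum_eq_zero fun k _ => by rw [h0, mul_zero]
  · exact fun j c hc y hy => hinv j c hc y hy y hy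
  · intro x
    rw [hW]
    exact and_congr_right fun _ => ⟨fun h j g i => h j i g, fun h j i g => h j g i⟩
  · intro y hy
    rw [hcs y hy y hy]
    exact hQ y hy
  · intro j _ g hg h1 h2
    exfalso
    have h3 := eC_odd (hC j) g h1 h2
    rw [eC_coeff, if_pos hg] at h3
    exact one_ne_zero h3
  · intro j g hg hg1 a ha ha'
    have h1 := hI g hg hg1 a ha
    rw [← hcs a ha _ (stb _ _ ha), tot0 (v := j) ha', hinv j _ ((C j).inv_mem (Loc2.one_out _)) a ha _
      (stb _ _ ha)] at h1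
    exact h1
  · rw [Finset.sum_congr rfl fun j _ => if_pos (hC j), ← Nat.cast_sum, hm, Nat.cast_mul]
    exact zero_mul _

end H49GN
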