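import Pool.Agent.H49.GN2.Sr

/-!
MP_78d38b_GN2 (helper49): the relaxed group with its local data, first part.
-/

set_option autoImplicit false

namespace H49GN

/-- Elements of small vector spaces. -/
theorem small_vec {m : ℕ} (hm : m ≤ 2) : ∀ p q s : Fin m → ZMod 2, p ≠ 0 → q ≠ 0 → p ≠ q →
    s = 0 ∨ s = p ∨ s = q ∨ s = p + q := by
  have hm' : m = 0 ∨ m = 1 ∨ m = 2 := by omega
  rcases hm' with rfl | rfl | rfl
  · intro p q s hp
    exact absurd (Subsingleton.elim p 0) hp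
  · intro p q s hp hq hpq
    exfalso
    have h1 : ∀ a : ZMod 2, a ≠ 0 → a = 1 := by decide
    have h2 : ∀ p : Fin 1 → ZMod 2, p ≠ 0 → p = fun _ => 1 := by
      intro p hp
      have h3 : p 0 ≠ 0 := by
        intro h4
        apply hp
        funext j
        rw [Subsingleton.elim j 0, h4]
        rfl
      funext j
      rw [Subsingleton.elim j 0, h1 _ h3]
    exact hpq ((h2 p hp).trans (h2 q hq).symm)
  · intro p q s hp hq hpq
    have key : ∀ p0 p1 q0 q1 s0 s1 : ZMod 2, ¬ (p0 = 0 ∧ p1 = 0) → ¬ (q0 = 0 ∧ q1 = 0) →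
        ¬ (p0 = q0 ∧ p1 = q1) → (s0 = 0 ∧ s1 = 0) ∨ (s0 = p0 ∧ s1 = p1) ∨ (s0 = q0 ∧ s1 = q1) ∨
          (s0 = p0 + q0 ∧ s1 = p1 + q1) := by
      intro p0 p1 q0 q1
      have hz : ∀ a : ZMod 2, a = 0 ∨ a = 1 := by decide
      rcases hz p0 with rfl | rfl <;> rcases hz p1 with rfl | rfl <;>
        rcases hz q0 with rfl | rfl <;> rcases hz q1 with rfl | rfl <;> decide
    have ex : ∀ a b : Fin 2 → ZMod 2, (a 0 = b 0 ∧ a 1 = b 1) → a = b := by
      rintro a b ⟨h1, h2⟩
      funext j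
      have h3 : j = 0 ∨ j = 1 := by
        have h4 : ∀ j : Fin 2, j = 0 ∨ j = 1 := by decide
        exact h4 j
      rcases h3 with rfl | rfl
      · exact h1
      · exact h2
    rcases key (p 0) (p 1) (q 0) (q 1) (s 0) (s 1) (fun h => hp (ex p 0 h)) (fun h => hq (ex q 0 h))
      (fun h => hpq (ex p q h)) with h | h | h | h
    · exact Or.inl (ex s 0 h)
    · exact Or.inr (Or.inl (ex s p h))
    · exact Or.inr (Or.inr (Or.inl (ex s q h)))
    · exact Or.inr (Or.inr (Or.inr (ex s (p + q) h)))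

open scoped Classical

variable {G V : Type} [Group G] [Fintype G] [AddCommGroup V]

/-- The relaxed group `Y` with the local data at the places `v` with decomposition groups `H v`. -/
structure Loc2 (act : G → V → V) (Y W : AddSubgroup V) {ι : Type} [Fintype ι]
    (H : ι → Subgroup G) {m : ι → ℕ} (r u : ∀ v, Fin (m v) → V →+ ZMod 2) : Prop where
  a1 : ∀ x, act 1 x = x
  amul : ∀ g h x, act (g * h) x = act g (act h x)
  aadd : ∀ g x y, act g (x + y) = act g x + act g y
  stb : ∀ g, ∀ y ∈ Y, act g y ∈ Y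
  cyc : ∀ v, ∃ σ, H v = Subgroup.zpowers σ
  m2 : ∀ v, m v ≤ 2
  kr : ∀ v, ∀ h ∈ H v, ∀ y ∈ Y, (∀ j, r v j y = 0) → ∀ j, r v j (act h y) = 0
  qi : ∀ v, ∀ h ∈ H v, ∀ y ∈ Y,
    ∑ j, r v j (act h y) * u v j (act h y) = ∑ j, r v j y * u v j y
  ker : ∀ y ∈ Y, (∀ v g j, r v j (act g y) = 0) → y = 0
  card : 2 ^ (∑ v, m v * (H v).index) ≤ Nat.card Y
  hW : ∀ x, x ∈ W ↔ x ∈ Y ∧ ∀ v g j, u v j (act g x) = 0
  tot : ∀ y ∈ Y, ∑ v, csum act (H v) (fun x y => ∑ j, r v j x * u v j y) y y = 0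
  m1 : ∀ v, m v = 1 → Odd (Nat.card (H v))
  mv : ∀ v, m v ≠ 0 → ∀ g ∈ H v, g * g = 1 → g ≠ 1 → ∃ a ∈ Y,
    (∀ v' g j, (v' = v → g ∉ H v) → r v' j (act g a) = 0) ∧ act g a ≠ a
  inv : ∀ v, ∀ g, g * g = 1 → g ≠ 1 → ∀ a ∈ Y,
    (∀ v' g j, (v' = v → g ∉ H v) → r v' j (act g a) = 0) → ∑ j, r v j a * u v j (act g a) = 0
  par : ∑ v, (if Odd (Nat.card (H v)) then (m v : ZMod 2) else ((m v / 2 : ℕ) : ZMod 2)) = 0

/-- All local components except the one at `v` vanish. -/
def Yv (act : G → V → V) {ι : Type} (H : ι → Subgroup G) {m : ι → ℕ}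
    (r : ∀ v, Fin (m v) → V →+ ZMod 2) (v : ι) (a : V) : Prop :=
  ∀ v' g j, (v' = v → g ∉ H v) → r v' j (act g a) = 0

namespace Loc2

variable {act : G → V → V} {Y W : AddSubgroup V} {ι : Type} [Fintype ι] {H : ι → Subgroup G}
  {m : ι → ℕ} {r u : ∀ v, Fin (m v) → V →+ ZMod 2}

theorem azero (h : Loc2 act Y W H r u) (g : G) : act g 0 = 0 := by
  have h1 := h.aadd g 0 0
  rw [add_zero] at h1
  exact left_eq_add.1 h1

theorem coset_zero (h : Loc2 act Y W H r u) {y : V} (hy : y ∈ Y) (v : ι) (g : G)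
    (h0 : ∀ j, r v j (act ((g⁻¹ : G) : G ⧸ H v).out⁻¹ y) = 0) (j : Fin (m v)) :
    r v j (act g y) = 0 := by
  obtain ⟨t, ht⟩ := QuotientGroup.mk_out_eq_mul (H v) g⁻¹
  have e : g = (t : G) * ((g⁻¹ : G) : G ⧸ H v).out⁻¹ := by
    rw [ht]
    group
  rw [e, h.amul]
  exact h.kr v t t.2 _ (h.stb _ _ hy) h0 j

/-- The local components. -/
noncomputable def Ph (h : Loc2 act Y W H r u) : Y →+ ∀ v, (G ⧸ H v) → Fin (m v) → ZMod 2 :=
  AddMonoidHom.mk' (fun y v q j => r v j (act q.out⁻¹ (y : V))) fun x y => by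
    funext v q j
    change r v j (act q.out⁻¹ ((x : V) + y)) = r v j (act q.out⁻¹ (x : V)) + r v j (act q.out⁻¹ (y : V))
    rw [h.aadd, map_add]

theorem Ph_apply (h : Loc2 act Y W H r u) (y : Y) (v : ι) (q : G ⧸ H v) (j : Fin (m v)) :
    h.Ph y v q j = r v j (act q.out⁻¹ (y : V)) := rfl

theorem Ph_inj (h : Loc2 act Y W H r u) : Function.Injective h.Ph := by
  rw [injective_iff_map_eq_zero]
  intro y hy
  apply Subtype.ext
  refine h.ker _ y.2 fun v g j => h.coset_zero y.2 v g (fun j => ?_) j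
  rw [← h.Ph_apply, hy]
  rfl

theorem Ph_bij (h : Loc2 act Y W H r u) : Function.Bijective h.Ph := by
  have hfq : ∀ v, Finite (G ⧸ H v) := fun v => inferInstance
  have hfin : Finite Y := Finite.of_injective _ h.Ph_inj
  refine (Nat.bijective_iff_injective_and_card _).2 ⟨h.Ph_inj, le_antisymm ?_ ?_⟩
  · exact Nat.card_le_card_of_injective _ h.Ph_inj
  · refine le_trans (le_of_eq ?_) h.card
    rw [Nat.card_pi, ← Finset.prod_pow_eq_pow_sum]
    refine Finset.prod_congr rfl fun v _ => ?_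
    rw [Nat.card_fun, Nat.card_fun, Nat.card_zmod, Nat.card_fin, ← pow_mul]
    rfl

theorem one_out (H : Subgroup G) : ((1 : G) : G ⧸ H).out ∈ H := by
  obtain ⟨t, ht⟩ := QuotientGroup.mk_out_eq_mul H 1
  rw [ht, one_mul]
  exact t.2

theorem exists_Yv (h : Loc2 act Y W H r u) (v : ι) (z : Fin (m v) → ZMod 2) :
    ∃ a ∈ Y, Yv act H r v a ∧ ∀ j, r v j a = z j := by
  obtain ⟨y, hy⟩ := h.Ph_bij.2 fun v' q j => if e : v' = v then
    (if (e ▸ q) = ((1 : G) : G ⧸ H v) then z (e ▸ j) else 0) else 0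
  refine ⟨act ((1 : G) : G ⧸ H v).out⁻¹ (y : V), h.stb _ _ y.2, fun v' g j hg => ?_, fun j => ?_⟩
  · rw [← h.amul]
    refine h.coset_zero y.2 v' _ (fun j => ?_) j
    rw [← h.Ph_apply, hy]
    dsimp only
    by_cases e : v' = v
    · subst e
      rw [dif_pos rfl, if_neg]
      intro h1
      have h1' : (((g * ((1 : G) : G ⧸ H v').out⁻¹)⁻¹ : G) : G ⧸ H v') = ((1 : G) : G ⧸ H v') := h1
      have h2 := QuotientGroup.eq.1 h1'.symm
      rw [inv_one, one_mul, mul_inv_rev, inv_inv] at h2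
      have h3 := (H v').mul_mem ((H v').inv_mem (one_out (H v'))) h2
      rw [inv_mul_cancel_left] at h3
      exact hg rfl (inv_mem_iff.1 h3)
    · rw [dif_neg e]
  · rw [← h.Ph_apply, hy]
    dsimp only
    rw [dif_pos rfl]
    exact if_pos rfl

theorem Yv_smul (h : Loc2 act Y W H r u) {v : ι} {a : V} (ha : Yv act H r v a) {t : G}
    (ht : t ∈ H v) : Yv act H r v (act t a) := by
  intro v' g j hg
  rw [← h.amul]
  refine ha v' _ j fun e h1 => hg e ?_
  have h2 := (H v).mul_mem h1 ((H v).inv_mem ht)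
  rwa [mul_inv_cancel_right] at h2

theorem Yv_inj (h : Loc2 act Y W H r u) {v : ι} {a : V} (haY : a ∈ Y) (ha : Yv act H r v a)
    (h0 : ∀ j, r v j a = 0) : a = 0 := by
  refine h.ker a haY fun v' g j => ?_
  by_cases e : v' = v
  · subst e
    by_cases hg : g ∈ H v'
    · exact h.kr v' g hg a haY h0 j
    · exact ha v' g j fun _ => hg
  · exact ha v' g j fun e' => absurd e' e

theorem Yv_add (h : Loc2 act Y W H r u) {v : ι} {a b : V} (ha : Yv act H r v a)
    (hb : Yv act H r v b) : Yv act H r v (a + b) := by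
  intro v' g j hg
  rw [h.aadd, map_add, ha v' g j hg, hb v' g j hg, add_zero]

/-- The total form at an element of `Yv`. -/
theorem tot_Yv (h : Loc2 act Y W H r u) {v : ι} {a : V} (haY : a ∈ Y) (ha : Yv act H r v a) (y : V) :
    ∑ v, csum act (H v) (fun x y => ∑ j, r v j x * u v j y) a y =
      ∑ j, r v j (act ((1 : G) : G ⧸ H v).out⁻¹ a) * u v j (act ((1 : G) : G ⧸ H v).out⁻¹ y) := by
  rw [Finset.sum_eq_single v]
  · unfold csum
    let _ := Fintype.ofFinite (G ⧸ H v)
    rw [Finset.sum_eq_single ((1 : G) : G ⧸ H v)]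
    · intro q _ hq
      refine Finset.sum_eq_zero fun j _ => ?_
      rw [ha v _ j, zero_mul]
      intro _ h1
      apply hq
      have h2 : q.out ∈ H v := inv_mem_iff.1 h1
      rw [← QuotientGroup.out_eq' q, QuotientGroup.eq]
      rw [mul_one]
      exact (H v).inv_mem h2
    · intro h1
      exact absurd (Finset.mem_univ _) h1
  · intro v' _ hv
    unfold csum
    refine Finset.sum_eq_zero fun q _ => Finset.sum_eq_zero fun j _ => ?_
    rw [ha v' _ j fun e => absurd e hv, zero_mul]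
  · intro h1
    exact absurd (Finset.mem_univ _) h1

theorem Yv_q (h : Loc2 act Y W H r u) {v : ι} {a : V} (haY : a ∈ Y) (ha : Yv act H r v a) :
    ∑ j, r v j a * u v j a = 0 := by
  have h1 := h.tot_Yv haY ha a
  rw [h.tot a haY, h.qi v _ ((H v).inv_mem (one_out (H v))) a haY] at h1
  exact h1.symm

/-- **The local pairing is invariant.** -/
theorem b_inv (h : Loc2 act Y W H r u) (v : ι) {t : G} (ht : t ∈ H v) {x y : V} (hx : x ∈ Y)
    (hy : y ∈ Y) :
    ∑ j, r v j (act t x) * u v j (act t y) = ∑ j, r v j x * u v j y := by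
  obtain ⟨b, hb⟩ : ∃ b : V → V → ZMod 2, ∀ x y, b x y = ∑ j, r v j x * u v j y :=
    ⟨fun x y => ∑ j, r v j x * u v j y, fun _ _ => rfl⟩
  rw [← hb, ← hb]
  have bl : ∀ x x' y, b (x + x') y = b x y + b x' y := fun x x' y => by
    rw [hb, hb, hb, ← Finset.sum_add_distrib]
    exact Finset.sum_congr rfl fun j _ => by rw [map_add, add_mul]
  have br : ∀ x y y', b x (y + y') = b x y + b x y' := fun x y y' => by
    rw [hb, hb, hb, ← Finset.sum_add_distrib]
    exact Finset.sum_congr rfl fun j _ => by rw [map_add, mul_add]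
  have b0 : ∀ x y, (∀ j, r v j x = 0) → b x y = 0 := fun x y h0 => by
    rw [hb]
    exact Finset.sum_eq_zero fun j _ => by rw [h0, zero_mul]
  have bq : ∀ x ∈ Y, b (act t x) (act t x) = b x x := fun x hx => by
    rw [hb, hb]
    exact h.qi v t ht x hx
  -- the case `r y = 0`
  have c2 : ∀ x ∈ Y, ∀ y ∈ Y, (∀ j, r v j y = 0) → b (act t x) (act t y) = b x y := by
    intro x hx y hy h0
    have h1 := bq (x + y) (Y.add_mem hx hy)
    rw [h.aadd, bl, br, br, bl, br, br, bq x hx, bq y hy, b0 y x h0,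
      b0 (act t y) (act t x) (h.kr v t ht y hy h0), zero_add] at h1
    exact add_left_cancel (add_right_cancel h1)
  -- the alternating part
  have c3 : ∀ x ∈ Y, Yv act H r v x → ∀ y ∈ Y, Yv act H r v y →
      b (act t x) (act t y) = b x y := by
    have alt : ∀ a ∈ Y, Yv act H r v a → b a a = 0 := fun a ha ha' => by
      rw [hb]
      exact h.Yv_q ha ha'
    have sym : ∀ a ∈ Y, Yv act H r v a → ∀ c ∈ Y, Yv act H r v c → b a c = b c a := by
      intro a ha ha' c hc hc'
      have h1 := alt (a + c) (Y.add_mem ha hc) (h.Yv_add ha' hc')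
      rw [bl, br, br, alt a ha ha', alt c hc hc', zero_add, add_zero] at h1
      exact CharTwo.add_eq_zero.1 h1
    have inj : ∀ a ∈ Y, Yv act H r v a → ∀ c ∈ Y, Yv act H r v c →
        (fun j => r v j a) = (fun j => r v j c) → a = c := by
      intro a ha ha' c hc hc' e
      have hcn : Yv act H r v (-c) := by
        intro v' g j hg
        have h1 : r v' j (act g (c + -c)) = 0 := by
          rw [add_neg_cancel, h.azero, map_zero]
        rw [h.aadd, map_add, hc' v' g j hg, zero_add] at h1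
        exact h1
      have h1 := h.Yv_inj (Y.add_mem ha (Y.neg_mem hc)) (h.Yv_add ha' hcn) fun j => by
        rw [map_add, map_neg, congrFun e j, add_neg_cancel]
      rwa [← sub_eq_add_neg, sub_eq_zero] at h1
    intro x hx hx' y hy hy'
    have hsx := h.stb t x hx
    have hsy := h.stb t y hy
    have hsx' := h.Yv_smul hx' ht
    have hsy' := h.Yv_smul hy' ht
    have tinj : ∀ a c : V, act t a = act t c → a = c := fun a c e => by
      have e1 := congrArg (act t⁻¹) e
      rwa [← h.amul, ← h.amul, inv_mul_cancel, h.a1, h.a1] at e1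
    have bz : ∀ a, b a 0 = 0 := fun a => by
      have h1 := br a 0 0
      rw [add_zero] at h1
      exact left_eq_add.1 h1
    by_cases h1 : x = 0
    · rw [h1, h.azero, b0 _ _ fun j => map_zero _, b0 _ _ fun j => map_zero _]
    by_cases h2 : y = 0
    · rw [h2, h.azero, bz, bz]
    by_cases h3 : x = y
    · rw [h3, alt _ hsy hsy', alt _ hy hy']
    have e0 : ∀ a ∈ Y, Yv act H r v a → a ≠ 0 → (fun j => r v j a) ≠ 0 := by
      intro a ha ha' hne e
      exact hne (h.Yv_inj ha ha' fun j => congrFun e j)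
    have hcl : ∀ s ∈ Y, Yv act H r v s → s ≠ 0 → s = x ∨ s = y ∨ s = x + y := by
      intro s hs hs' hne
      rcases small_vec (h.m2 v) (fun j => r v j x) (fun j => r v j y) (fun j => r v j s)
        (e0 x hx hx' h1) (e0 y hy hy' h2) (fun e => h3 (inj x hx hx' y hy hy' e)) with e | e | e | e
      · exact absurd e (e0 s hs hs' hne)
      · exact Or.inl (inj s hs hs' x hx hx' e)
      · exact Or.inr (Or.inl (inj s hs hs' y hy hy' e))
      · refine Or.inr (Or.inr (inj s hs hs' (x + y) (Y.add_mem hx hy) (h.Yv_add hx' hy') ?_))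
        rw [e]
        funext j
        exact (map_add (r v j) x y).symm
    have n1 : act t x ≠ 0 := fun e => h1 (tinj x 0 (by rw [e, h.azero]))
    have n2 : act t y ≠ 0 := fun e => h2 (tinj y 0 (by rw [e, h.azero]))
    have n3 : act t x ≠ act t y := fun e => h3 (tinj x y e)
    have ax := alt x hx hx'
    have ay := alt y hy hy'
    have sy := sym y hy hy' x hx hx'
    rcases hcl _ hsx hsx' n1 with e | e | e <;> rcases hcl _ hsy hsy' n2 with e' | e' | e' <;>
      rw [e, e'] <;> rw [e, e'] at n3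
    · exact absurd rfl n3
    · rw [br, ax, zero_add]
    · exact sy
    · exact absurd rfl n3
    · rw [br, ay, add_zero, sy]
    · rw [bl, ax, zero_add, sy]
    · rw [bl, ay, add_zero]
    · exact absurd rfl n3
  obtain ⟨x₁, g1, g2, g3⟩ := h.exists_Yv v fun j => r v j x
  obtain ⟨y₁, k1, k2, k3⟩ := h.exists_Yv v fun j => r v j y
  have ex : x = x₁ + (x - x₁) := (add_sub_cancel x₁ x).symm
  have ey : y = y₁ + (y - y₁) := (add_sub_cancel y₁ y).symm
  have zx : ∀ j, r v j (x - x₁) = 0 := fun j => by rw [map_sub, g3, sub_self]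
  have zy : ∀ j, r v j (y - y₁) = 0 := fun j => by rw [map_sub, k3, sub_self]
  have mx : x - x₁ ∈ Y := Y.sub_mem hx g1
  have my : y - y₁ ∈ Y := Y.sub_mem hy k1
  rw [ex, h.aadd, bl, bl, b0 _ _ (h.kr v t ht _ mx zx), b0 _ _ zx, add_zero, add_zero, ey, h.aadd, br,
    br, c3 _ g1 g2 _ k1 k2, c2 _ g1 _ my zy]

end Loc2

end H49GN
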