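import Pool.Agent.H49.GN2.Mn

/-!
MP_78d38b_GN2 (helper49): the relaxed group with its local data, second part: the socle of the radical is balanced.
-/

set_option autoImplicit false
open scoped Classical

namespace H49GN

open H26GN
open H26OD (RG)

variable {G V : Type} [Group G] [Fintype G] [AddCommGroup V]

namespace Loc2

variable {act : G → V → V} {Y W : AddSubgroup V} {ι : Type} [Fintype ι] {H : ι → Subgroup G}
  {m : ι → ℕ} {r u : ∀ v, Fin (m v) → V →+ ZMod 2}

theorem Yv_neg (h : Loc2 act Y W H r u) {v : ι} {a : V} (ha : Yv act H r v a) :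
    Yv act H r v (-a) := by
  intro v' g j hg
  have h1 : r v' j (act g (a + -a)) = 0 := by
    rw [add_neg_cancel, h.azero, map_zero]
  rw [h.aadd, map_add, ha v' g j hg, zero_add] at h1
  exact h1

theorem exists_split (h : Loc2 act Y W H r u) (v : ι) :
    Nonempty (SpOut act Y (H v) (m v) (fun x y => ∑ j, r v j x * u v j y)
      (fun x => ∀ j, r v j x = 0) (fun x => ∀ j, u v j x = 0)) := by
  obtain ⟨σ, hσ⟩ := h.cyc v
  have hmem : σ ∈ H v := by
    rw [hσ]
    exact Subgroup.mem_zpowers σ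
  rw [hσ]
  refine split_place h.a1 h.amul h.aadd h.stb σ (h.m2 v) (r v) (u v) (fun _ _ _ _ => rfl)
    (fun x hx y hy => h.b_inv v hmem hx hy) (fun z => ?_) (fun x hx h0 => h.kr v σ hmem x hx h0)
    (fun _ _ => Iff.rfl) (fun _ _ => Iff.rfl) fun hev hm0 => ?_
  · obtain ⟨a, ha, -, hz⟩ := h.exists_Yv v z
    exact ⟨a, ha, hz⟩
  · have hcard : Nat.card (H v) = orderOf σ := by rw [hσ, Nat.card_zpowers]
    have hm1 : m v ≠ 1 := fun e => by
      have h1 := h.m1 v e
      rw [hcard] at h1
      exact (Nat.not_even_iff_odd.2 h1) hev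
    have hm2 := h.m2 v
    refine ⟨by omega, ?_⟩
    obtain ⟨k, hk⟩ := hev
    have hpos := orderOf_pos σ
    have hdiv : orderOf σ / 2 = k := by omega
    obtain ⟨a, ha, ha', hne⟩ := h.mv v hm0 (σ ^ (orderOf σ / 2)) ((H v).pow_mem hmem _) (by
      rw [hdiv, ← pow_add, ← hk, pow_orderOf_eq_one]) (by
      rw [hdiv]
      intro e
      have h1 := orderOf_dvd_of_pow_eq_one e
      have h2 := Nat.le_of_dvd (by omega) h1
      omega)
    refine ⟨a, ha, ?_⟩
    by_contra hall
    push Not at hall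
    apply hne
    have h1 := h.Yv_inj (Y.add_mem (h.stb _ _ ha) (Y.neg_mem ha))
      (h.Yv_add (h.Yv_smul ha' ((H v).pow_mem hmem _)) (h.Yv_neg ha')) fun j => by
      rw [map_add, map_neg, hall j, add_neg_cancel]
    rwa [← sub_eq_add_neg, sub_eq_zero] at h1

theorem gen (h : Loc2 act Y W H r u) {φ : Y →+ ZMod 2}
    (hφ : ∀ v, ∀ a ∈ Y, Yv act H r v a → ∀ (k : G) (y : Y), (y : V) = act k a → φ y = 0) (y : Y) :
    φ y = 0 := by
  let _ : ∀ v, Fintype (G ⧸ H v) := fun v => Fintype.ofFinite _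
  have hch := fun (v : ι) (q : G ⧸ H v) => h.exists_Yv v (fun j => h.Ph y v q j)
  choose a ha1 ha2 ha3 using hch
  have hs : y = ∑ v, ∑ q : G ⧸ H v, (⟨act q.out (a v q), h.stb _ _ (ha1 v q)⟩ : Y) := by
    apply h.Ph_inj
    rw [map_sum]
    funext v' q' j
    rw [Finset.sum_apply, Finset.sum_apply, Finset.sum_apply, Finset.sum_eq_single v', map_sum,
      Finset.sum_apply, Finset.sum_apply, Finset.sum_apply, Finset.sum_eq_single q', h.Ph_apply]
    · change _ = r v' j (act q'.out⁻¹ (act q'.out (a v' q')))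
      rw [← h.amul, inv_mul_cancel, h.a1, ha3, h.Ph_apply]
    · intro q _ hq
      rw [h.Ph_apply]
      change r v' j (act q'.out⁻¹ (act q.out (a v' q))) = 0
      rw [← h.amul]
      refine ha2 v' q v' _ j fun _ h1 => hq ?_
      have h2 : (q'.out : G ⧸ H v') = (q.out : G ⧸ H v') := QuotientGroup.eq.2 h1
      rw [QuotientGroup.out_eq', QuotientGroup.out_eq'] at h2
      exact h2.symm
    · intro h1
      exact absurd (Finset.mem_univ _) h1
    · intro v _ hv
      rw [map_sum, Finset.sum_apply, Finset.sum_apply, Finset.sum_apply]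
      refine Finset.sum_eq_zero fun q _ => ?_
      rw [h.Ph_apply]
      change r v' j (act q'.out⁻¹ (act q.out (a v q))) = 0
      rw [← h.amul]
      exact ha2 v q v' _ j fun e => absurd e.symm hv
    · intro h1
      exact absurd (Finset.mem_univ _) h1
  rw [hs, map_sum]
  refine Finset.sum_eq_zero fun v _ => ?_
  rw [map_sum]
  exact Finset.sum_eq_zero fun q _ => hφ v _ (ha1 v q) (ha2 v q) q.out _ rfl

/-- **The structure `Nec2`.** -/
theorem nec2 (h : Loc2 act Y W H r u) : Nonempty (Nec2 act W) := by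
  have hsp := fun v => h.exists_split v
  let sp := fun v => Classical.choice (hsp v)
  let _ : ∀ v, Fintype (sp v).κ := fun v => (sp v).fin
  obtain ⟨om, hom⟩ : ∃ om : V → V → ZMod 2, ∀ x y,
      om x y = ∑ i : Σ v, (sp v).κ, ∑ g, (sp i.1).r i.2 (act g x) * (sp i.1).u i.2 (act g y) :=
    ⟨_, fun _ _ => rfl⟩
  have hsum : ∀ x ∈ Y, ∀ y ∈ Y, om x y =
      ∑ v, csum act (H v) (fun x y => ∑ j, r v j x * u v j y) x y := by
    intro x hx y hy
    rw [hom, Fintype.sum_sigma]
    exact Finset.sum_congr rfl fun v _ => (sp v).sum x hx y hy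
  have oaddl : ∀ x x' y, om (x + x') y = om x y + om x' y := by
    intro x x' y
    rw [hom, hom, hom, ← Finset.sum_add_distrib]
    refine Finset.sum_congr rfl fun i _ => ?_
    rw [← Finset.sum_add_distrib]
    refine Finset.sum_congr rfl fun g _ => ?_
    rw [h.aadd, map_add, add_mul]
  have oaddr : ∀ x y y', om x (y + y') = om x y + om x y' := by
    intro x y y'
    rw [hom, hom, hom, ← Finset.sum_add_distrib]
    refine Finset.sum_congr rfl fun i _ => ?_
    rw [← Finset.sum_add_distrib]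
    refine Finset.sum_congr rfl fun g _ => ?_
    rw [h.aadd, map_add, mul_add]
  have oact : ∀ g x y, om (act g x) (act g y) = om x y := by
    intro g x y
    rw [hom, hom]
    refine Finset.sum_congr rfl fun i _ => ?_
    refine Fintype.sum_equiv (Equiv.mulRight g) _ _ fun t => ?_
    change _ = (sp i.1).r i.2 (act (t * g) x) * (sp i.1).u i.2 (act (t * g) y)
    rw [h.amul, h.amul]
  have osq : ∀ y ∈ Y, om y y = 0 := fun y hy => by rw [hsum y hy y hy]; exact h.tot y hy
  have osym : ∀ x ∈ Y, ∀ y ∈ Y, om x y = om y x := by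
    intro x hx y hy
    have h1 := osq (x + y) (Y.add_mem hx hy)
    rw [oaddl, oaddr, oaddr, osq x hx, osq y hy, zero_add, add_zero] at h1
    exact CharTwo.add_eq_zero.1 h1
  have oinv : ∀ g : G, g * g = 1 → g ≠ 1 → ∀ y ∈ Y, om y (act g y) = 0 := by
    intro g hg hg1 y hy
    obtain ⟨φ, hφ⟩ : ∃ φ : Y →+ ZMod 2, ∀ y : Y, φ y = om (y : V) (act g (y : V)) :=
      ⟨AddMonoidHom.mk' (fun y => om (y : V) (act g (y : V))) fun x y => by
        change om ((x : V) + y) (act g ((x : V) + y)) = _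
        have h1 : om (y : V) (act g (x : V)) = om (x : V) (act g (y : V)) := by
          rw [← oact g, ← h.amul, hg, h.a1, osym _ (h.stb g _ y.2) _ x.2]
        rw [h.aadd, oaddl, oaddr, oaddr, h1]
        have h2 : ∀ a b c : ZMod 2, a + c + (c + b) = a + b := by decide
        exact h2 _ _ _, fun _ => rfl⟩
    have h1 := h.gen (φ := φ) (fun v a ha ha' k z hz => by
      rw [hφ, hz, ← oact k⁻¹, ← h.amul, ← h.amul, ← h.amul, inv_mul_cancel, h.a1,
        hsum a ha _ (h.stb _ _ ha), h.tot_Yv ha ha', h.b_inv v ((H v).inv_mem (one_out (H v))) ha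
        (h.stb _ _ ha)]
      refine h.inv v _ ?_ ?_ a ha ha'
      · calc k⁻¹ * g * k * (k⁻¹ * g * k) = k⁻¹ * (g * g) * k := by group
          _ = 1 := by rw [hg]; group
      · intro e
        apply hg1
        have e1 : g = k * (k⁻¹ * g * k) * k⁻¹ := by group
        rw [e1, e, mul_one, mul_inv_cancel]) ⟨y, hy⟩
    rwa [hφ] at h1
  refine nec2_of (ι := Σ v, (sp v).κ) h.a1 h.amul h.aadd h.stb (fun i => (sp i.1).e i.2)
    (fun i => (sp i.1).ee i.2) (fun i => (sp i.1).es i.2) (fun i => (sp i.1).eo i.2) ?_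
    (fun i => (sp i.1).r i.2) (fun i => (sp i.1).u i.2) (fun y hy i => (sp i.1).hre y hy i.2)
    (fun y hy i => (sp i.1).hue y hy i.2) (fun y hy h0 => ?_) ?_ (fun x => ?_) (fun y hy => ?_)
    (fun g hg hg1 y hy => ?_)
  · rw [Fintype.sum_sigma]
    exact (Finset.sum_congr rfl fun v _ => (sp v).par).trans h.par
  · refine h.ker y hy fun v g j => ?_
    exact (sp v).hr y hy (fun k g => h0 ⟨v, k⟩ g) g j
  · refine le_trans (le_of_eq ?_) h.card
    rw [Fintype.prod_sigma, ← Finset.prod_pow_eq_pow_sum]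
    exact Finset.prod_congr rfl fun v _ => (sp v).card
  · rw [h.hW]
    refine and_congr_right fun hx => ?_
    constructor
    · rintro h0 ⟨v, k⟩ g
      exact ((sp v).hu x hx).2 (fun g j => h0 v g j) k g
    · intro h0 v g j
      exact ((sp v).hu x hx).1 (fun k g => h0 ⟨v, k⟩ g) g j
  · rw [← hom]
    exact osq y hy
  · rw [← hom]
    exact oinv g hg hg1 y hy

/-- **The radical has a balanced socle.** -/
theorem gbal (h : Loc2 act Y W H r u) : GBal act W := by
  obtain ⟨n⟩ := h.nec2
  exact gbal_of_nec2 n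

end Loc2

end H49GN
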