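import Pool.Agent.H49.GN2.Qf

/-!
MP_78d38b_GN2 (helper49): the necessity of the balancedness condition when the relaxed group is a sum of modules `A e_i`
(`e_i` a self adjoint idempotent of an odd subgroup).
-/

set_option autoImplicit false
open scoped Classical

namespace H49GN

open H26GN
open H26OD (RG rg_induction coeff_eq_tau coeff_st)

/-- The relaxed group `Y` is the sum of the modules `A e_i` over `A = F_2[G]` (via `R`), the number of the `i` such that the coefficient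
of one in `e_i` is `1` is even, and `W` is the radical of a symmetric invariant form `om` on `Y` with `om (x, g x) = 0` for all `g`
with `g ^ 2 = 1`. -/
structure Nec2 {G V : Type} [Group G] [AddCommGroup V] (act : G → V → V) (W : AddSubgroup V) where
  Y : AddSubgroup V
  stb : ∀ g, ∀ y ∈ Y, act g y ∈ Y
  ι : Type
  fin : Fintype ι
  e : ι → RG G
  ee : ∀ i, e i * e i = e i
  es : ∀ i, H26OD.st (e i) = e i
  eo : ∀ i, ∀ g : G, g * g = 1 → g ≠ 1 → (e i).coeff g = 0
  par : ∑ i, H26OD.tau (e i) = 0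
  R : V → ι → RG G
  Radd : ∀ x ∈ Y, ∀ y ∈ Y, ∀ i, R (x + y) i = R x i + R y i
  Rmem : ∀ x ∈ Y, ∀ i, R x i * e i = R x i
  Rinj : ∀ x ∈ Y, (∀ i, R x i = 0) → x = 0
  Rsurj : ∀ a : ι → RG G, (∀ i, a i * e i = a i) → ∃ y ∈ Y, ∀ i, R y i = a i
  Ract : ∀ g, ∀ y ∈ Y, ∀ i, R (act g y) i = MonoidAlgebra.of (ZMod 2) G g * R y i
  om : V → V → ZMod 2
  oadd : ∀ x ∈ Y, ∀ x' ∈ Y, ∀ y ∈ Y, om (x + x') y = om x y + om x' y
  osym : ∀ x ∈ Y, ∀ y ∈ Y, om x y = om y x
  oact : ∀ g, ∀ x ∈ Y, ∀ y ∈ Y, om (act g x) (act g y) = om x y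
  oinv : ∀ g : G, g * g = 1 → ∀ x ∈ Y, om x (act g x) = 0
  rad : ∀ x, x ∈ W ↔ x ∈ Y ∧ ∀ y ∈ Y, om y x = 0

/-- Even cardinality. -/
theorem exists_half_equiv (J : Type) [Fintype J] (h : (Fintype.card J : ZMod 2) = 0) :
    ∃ m : ℕ, Nonempty (J ≃ Fin m ⊕ Fin m) := by
  rw [ZMod.natCast_eq_zero_iff] at h
  obtain ⟨m, hm⟩ := h
  refine ⟨m, ⟨Fintype.equivOfCardEq ?_⟩⟩
  rw [hm, Fintype.card_sum, Fintype.card_fin, two_mul]

theorem par_card {G ι : Type} [Group G] [Fintype ι] (e : ι → RG G) (h : ∑ i, H26OD.tau (e i) = 0) :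
    (Fintype.card (ι ⊕ {i // H26OD.tau (e i) = 0}) : ZMod 2) = 0 := by
  rw [Fintype.card_sum, Nat.cast_add, Fintype.card_subtype]
  have h1 : (Fintype.card ι : ZMod 2) = ∑ _i : ι, (1 : ZMod 2) := by
    rw [Finset.sum_const, nsmul_eq_mul, mul_one, Finset.card_univ]
  rw [h1, Finset.card_filter, Nat.cast_sum, ← Finset.sum_add_distrib]
  refine Eq.trans (Finset.sum_congr rfl fun i _ => ?_) h
  have h2 : ∀ a : ZMod 2, (1 : ZMod 2) + ((if a = 0 then 1 else 0 : ℕ) : ZMod 2) = a := by decide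
  exact h2 _

section

variable {G V : Type} [Group G] [AddCommGroup V] {act : G → V → V} {W : AddSubgroup V}

/-- The action on the completion. -/
noncomputable def act2 (act : G → V → V) {ι : Type} (g : G) (x : V × (ι → RG G × RG G)) :
    V × (ι → RG G × RG G) :=
  (act g x.1, fun i => (MonoidAlgebra.of (ZMod 2) G g * (x.2 i).1, MonoidAlgebra.of (ZMod 2) G g * (x.2 i).2))

/-- The injection. -/
noncomputable def inj2 (V : Type) [AddCommGroup V] (G ι : Type) [Group G] : V →+ V × (ι → RG G × RG G) :=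
  AddMonoidHom.inl _ _

/-- Completion of the structure. -/
theorem nec_of_nec2 (h : Nec2 act W) :
    Nonempty (Nec (act2 (ι := h.ι) act) (W.map (inj2 V G h.ι))) := by
  let _ := h.fin
  obtain ⟨m, ⟨E⟩⟩ := exists_half_equiv _ (par_card h.e h.par)
  let Z : AddSubgroup (h.ι → RG G × RG G) :=
    { carrier := {z | ∀ i, z i ∈ Zf (h.e i)}
      zero_mem' := fun i => (Zf (h.e i)).zero_mem
      add_mem' := fun {x y} hx hy i => (Zf (h.e i)).add_mem (hx i) (hy i)
      neg_mem' := fun {x} hx i => (Zf (h.e i)).neg_mem (hx i) }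
  have hZ : ∀ z, z ∈ Z ↔ ∀ i, z i ∈ Zf (h.e i) := fun z => Iff.rfl
  let Y' : AddSubgroup (V × (h.ι → RG G × RG G)) := h.Y.prod Z
  have hY' : ∀ x, x ∈ Y' ↔ x.1 ∈ h.Y ∧ x.2 ∈ Z := fun x => AddSubgroup.mem_prod
  let R' : V × (h.ι → RG G × RG G) → (h.ι ⊕ {i // H26OD.tau (h.e i) = 0}) → RG G := fun x =>
    Sum.elim (fun i => h.R x.1 i + (x.2 i).1) (fun i => (x.2 i.1).2)
  have hR'l : ∀ x i, R' x (Sum.inl i) = h.R x.1 i + (x.2 i).1 := fun x i => rfl
  have hR'r : ∀ x i, R' x (Sum.inr i) = (x.2 i.1).2 := fun x i => rfl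
  let om' : V × (h.ι → RG G × RG G) → V × (h.ι → RG G × RG G) → ZMod 2 := fun x y =>
    h.om x.1 y.1 + ∑ i, qf (h.e i) (x.2 i) (y.2 i)
  have hom' : ∀ x y, om' x y = h.om x.1 y.1 + ∑ i, qf (h.e i) (x.2 i) (y.2 i) := fun x y => rfl
  have qz : ∀ e : RG G, ∀ y, qf e 0 y = 0 := fun e y => by
    have h1 := qf_add e 0 0 y
    rw [add_zero] at h1
    exact left_eq_add.1 h1
  have oz : ∀ y ∈ h.Y, h.om 0 y = 0 := fun y hy => by
    have h1 := h.oadd 0 h.Y.zero_mem 0 h.Y.zero_mem y hy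
    rw [add_zero] at h1
    exact left_eq_add.1 h1
  have rz : ∀ i, h.R 0 i = 0 := fun i => by
    have h1 := h.Radd 0 h.Y.zero_mem 0 h.Y.zero_mem i
    rw [add_zero] at h1
    exact left_eq_add.1 h1
  refine ⟨{ Y := Y', stb := ?_, m := m, R := fun x j => R' x (E.symm j), Radd := ?_, Rinj := ?_,
            Rsurj := ?_, Ract := ?_, om := om', oadd := ?_, osym := ?_, oact := ?_, oinv := ?_,
            rad := ?_ }⟩
  · intro g y hy
    exact ⟨h.stb g _ hy.1, fun i => Zf_act _ g _ (hy.2 i)⟩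
  · intro x hx y hy j
    rcases E.symm j with i | i
    · rw [hR'l, hR'l, hR'l]
      change h.R (x.1 + y.1) i + ((x.2 i).1 + (y.2 i).1) = _
      rw [h.Radd _ hx.1 _ hy.1]
      abel
    · rfl
  · intro x hx hj
    have h1 : ∀ k, R' x k = 0 := fun k => by
      have h2 := hj (E k)
      rwa [Equiv.symm_apply_apply] at h2
    have h2 : ∀ i, h.R x.1 i = 0 := fun i => by
      have h3 := h1 (Sum.inl i)
      rw [hR'l] at h3
      have h4 : (h.R x.1 i + (x.2 i).1) * h.e i = 0 := by rw [h3, zero_mul]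
      rwa [add_mul, h.Rmem _ hx.1, (hx.2 i).1, add_zero] at h4
    refine Prod.ext (h.Rinj _ hx.1 h2) ?_
    funext i
    refine Prod.ext ?_ ?_
    · have h3 := h1 (Sum.inl i)
      rw [hR'l, h2, zero_add] at h3
      exact h3
    · by_cases h3 : H26OD.tau (h.e i) = 0
      · exact h1 (Sum.inr ⟨i, h3⟩)
      · exact (hx.2 i).2 h3
  · intro a
    obtain ⟨v, hv, hv1⟩ := h.Rsurj (fun i => a (E (Sum.inl i)) * h.e i) (fun i => by
      rw [mul_assoc, h.ee])
    refine ⟨(v, fun i => (a (E (Sum.inl i)) * (1 + h.e i),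
      if h1 : H26OD.tau (h.e i) = 0 then a (E (Sum.inr ⟨i, h1⟩)) else 0)), ⟨hv, fun i => ⟨?_, ?_⟩⟩, ?_⟩
    · change a (E (Sum.inl i)) * (1 + h.e i) * h.e i = 0
      rw [mul_assoc, add_mul, one_mul, h.ee, H26OD.add_self, mul_zero]
    · intro h1
      exact dif_neg h1
    · intro j
      obtain ⟨k, rfl⟩ := E.surjective j
      rw [Equiv.symm_apply_apply]
      rcases k with i | i
      · rw [hR'l]
        change h.R v i + a (E (Sum.inl i)) * (1 + h.e i) = _
        rw [hv1, ← mul_add, add_comm (1 : RG G), ← add_assoc, H26OD.add_self, zero_add, mul_one]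
      · rw [hR'r]
        exact dif_pos i.2
  · intro g y hy j
    rcases E.symm j with i | i
    · rw [hR'l, hR'l]
      change h.R (act g y.1) i + MonoidAlgebra.of (ZMod 2) G g * (y.2 i).1 = _
      rw [h.Ract g _ hy.1, mul_add]
    · rfl
  · intro x hx x' hx' y hy
    rw [hom', hom', hom']
    have h1 : ∀ i, qf (h.e i) ((x + x').2 i) (y.2 i) =
      qf (h.e i) (x.2 i) (y.2 i) + qf (h.e i) (x'.2 i) (y.2 i) := fun i => qf_add _ _ _ _
    rw [Finset.sum_congr rfl fun i _ => h1 i, Finset.sum_add_distrib, Prod.fst_add,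
      h.oadd _ hx.1 _ hx'.1 _ hy.1]
    ring
  · intro x hx y hy
    rw [hom', hom', h.osym _ hx.1 _ hy.1, Finset.sum_congr rfl fun i _ => qf_symm (h.es i) _ _]
  · intro g x hx y hy
    rw [hom', hom']
    change h.om (act g x.1) (act g y.1) + _ = _
    rw [h.oact g _ hx.1 _ hy.1]
    refine congrArg _ (Finset.sum_congr rfl fun i _ => ?_)
    exact qf_act (h.e i) g (x.2 i) (y.2 i)
  · intro g hg x hx
    rw [hom']
    change h.om x.1 (act g x.1) + _ = _
    rw [h.oinv g hg _ hx.1, zero_add]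
    refine Finset.sum_eq_zero fun i _ => ?_
    exact qf_inv (h.es i) (h.eo i) g hg (x.2 i) (hx.2 i)
  · intro x
    constructor
    · rintro ⟨w, hw, rfl⟩
      refine ⟨⟨((h.rad w).1 hw).1, Z.zero_mem⟩, fun y hy => ?_⟩
      rw [hom']
      change h.om y.1 w + ∑ i, qf (h.e i) (y.2 i) 0 = 0
      rw [((h.rad w).1 hw).2 _ hy.1, zero_add]
      refine Finset.sum_eq_zero fun i _ => ?_
      rw [qf_symm (h.es i), qz]
    · rintro ⟨hx, hx1⟩
      have h1 : x.2 = 0 := by
        funext i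
        refine qf_nd (h.ee i) (h.es i) _ (hx.2 i) fun z hz => ?_
        have h2 := hx1 (0, Pi.single i z) ⟨h.Y.zero_mem, fun j => by
          by_cases hj : j = i
          · subst hj
            change (Pi.single j z : h.ι → RG G × RG G) j ∈ _
            rw [Pi.single_eq_same]
            exact hz
          · change (Pi.single i z : h.ι → RG G × RG G) j ∈ _
            rw [Pi.single_eq_of_ne hj]
            exact (Zf _).zero_mem⟩
        rw [hom'] at h2
        change h.om 0 x.1 + ∑ j, qf (h.e j) ((Pi.single i z : h.ι → RG G × RG G) j) (x.2 j) = 0 at h2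
        rw [oz _ hx.1, zero_add, Finset.sum_eq_single i, Pi.single_eq_same] at h2
        · exact h2
        · intro j _ hj
          rw [Pi.single_eq_of_ne hj, qz]
        · intro hi
          exact absurd (Finset.mem_univ i) hi
      refine ⟨x.1, (h.rad _).2 ⟨hx.1, fun y hy => ?_⟩, ?_⟩
      · have h2 := hx1 (y, 0) ⟨hy, Z.zero_mem⟩
        rw [hom'] at h2
        change h.om y x.1 + ∑ i, qf (h.e i) 0 (x.2 i) = 0 at h2
        rwa [Finset.sum_eq_zero fun i _ => qz _ _, add_zero] at h2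
      · exact Prod.ext rfl h1.symm

omit [Group G] in
/-- Pull back along an injective equivariant map. -/
theorem gbal_pull {V' : Type} [AddCommGroup V'] {act' : G → V' → V'} (i : V →+ V')
    (hi : Function.Injective i) (he : ∀ g x, i (act g x) = act' g (i x))
    (h : GBal act' (W.map i)) : GBal act W := by
  obtain ⟨β, h1, h2, h3, h4⟩ := h
  have hs : ∀ x ∈ soc act W, i x ∈ soc act' (W.map i) := by
    intro x hx
    rw [soc_map act' act i hi he]
    exact ⟨x, hx, rfl⟩
  refine ⟨fun x y => β (i x) (i y), ?_, ?_, ?_, ?_⟩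
  · intro x hx x' hx' y hy
    change β (i (x + x')) (i y) = _
    rw [map_add]
    exact h1 _ (hs _ hx) _ (hs _ hx') _ (hs _ hy)
  · intro x hx y hy y' hy'
    change β (i x) (i (y + y')) = _
    rw [map_add]
    exact h2 _ (hs _ hx) _ (hs _ hy) _ (hs _ hy')
  · intro g x hx y hy
    change β (i (act g x)) (i (act g y)) = _
    rw [he, he]
    exact h3 g _ (hs _ hx) _ (hs _ hy)
  · intro x hx h5
    apply hi
    rw [map_zero]
    apply h4 _ (hs _ hx)
    intro y hy
    rw [soc_map act' act i hi he] at hy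
    obtain ⟨y, hy0, rfl⟩ := hy
    exact h5 y hy0

/-- The radical of an invariant form on a sum of modules `A e_i` has a balanced socle. -/
theorem gbal_of_nec2 [Finite G] (h : Nec2 act W) : GBal act W := by
  obtain ⟨n⟩ := nec_of_nec2 h
  refine gbal_pull (inj2 V G h.ι) (fun x y hxy => congrArg Prod.fst hxy) (fun g x => ?_)
    (gbal_of_nec n)
  refine Prod.ext rfl ?_
  funext i
  refine Prod.ext ?_ ?_
  · change (0 : RG G) = _ * 0
    rw [mul_zero]
  · change (0 : RG G) = _ * 0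
    rw [mul_zero]

end

end H49GN
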