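import Pool.Agent.H49.GN2.Ne
import Pool.Agent.H88.OD.St

/-!
MP_78d38b_GN2 (helper49): abstract assembly of the structure `Nec2`.
-/

set_option autoImplicit false
open scoped Classical

namespace H49GN

open H26GN
open H26OD (RG coeff_eq_tau)

variable {G V : Type} [Group G]

theorem coeff_of_mul2 (k g : G) (h : RG G) :
    (MonoidAlgebra.of (ZMod 2) G k * h).coeff g = h.coeff (k⁻¹ * g) := by
  rw [coeff_eq_tau, coeff_eq_tau, ← mul_assoc, ← map_mul, mul_inv_rev, inv_inv]

/-- The element of the group algebra of a functional. -/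
noncomputable def fe [AddCommGroup V] (act : G → V → V) (l : V →+ ZMod 2) [Finite G] (x : V) : RG G :=
  H88OD.mk fun g => l (act g⁻¹ x)

theorem nec2_of [Fintype G] [AddCommGroup V] {act : G → V → V}
    (a1 : ∀ x, act 1 x = x) (amul : ∀ g h x, act (g * h) x = act g (act h x))
    (aadd : ∀ g x y, act g (x + y) = act g x + act g y)
    {W Y : AddSubgroup V} (stb : ∀ g, ∀ y ∈ Y, act g y ∈ Y)
    {ι : Type} [Fintype ι] (e : ι → RG G) (ee : ∀ i, e i * e i = e i)
    (es : ∀ i, H26OD.st (e i) = e i)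
    (eo : ∀ i, ∀ g : G, g * g = 1 → g ≠ 1 → (e i).coeff g = 0)
    (par : ∑ i, H26OD.tau (e i) = 0)
    (r u : ι → V →+ ZMod 2)
    (hre : ∀ y ∈ Y, ∀ i, fe act (r i) y * e i = fe act (r i) y)
    (hue : ∀ y ∈ Y, ∀ i, fe act (u i) y * e i = fe act (u i) y)
    (hker : ∀ y ∈ Y, (∀ i g, r i (act g y) = 0) → y = 0)
    (hcard : ∏ i, Nat.card {a : RG G // a * e i = a} ≤ Nat.card Y)
    (hW : ∀ x, x ∈ W ↔ x ∈ Y ∧ ∀ i g, u i (act g x) = 0)
    (hQ : ∀ y ∈ Y, ∑ i, ∑ g, r i (act g y) * u i (act g y) = 0)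
    (hinv : ∀ g : G, g * g = 1 → g ≠ 1 → ∀ y ∈ Y,
      ∑ i, ∑ h, r i (act h y) * u i (act h (act g y)) = 0) :
    Nonempty (Nec2 act W) := by
  -- the form
  obtain ⟨om, hom⟩ : ∃ om : V → V → ZMod 2, ∀ x y,
      om x y = ∑ i, ∑ g, r i (act g x) * u i (act g y) := ⟨_, fun _ _ => rfl⟩
  have oaddl : ∀ x x' y, om (x + x') y = om x y + om x' y := by
    intro x x' y
    rw [hom, hom, hom, ← Finset.sum_add_distrib]
    refine Finset.sum_congr rfl fun i _ => ?_
    rw [← Finset.sum_add_distrib]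
    refine Finset.sum_congr rfl fun g _ => ?_
    rw [aadd, map_add, add_mul]
  have oaddr : ∀ x y y', om x (y + y') = om x y + om x y' := by
    intro x y y'
    rw [hom, hom, hom, ← Finset.sum_add_distrib]
    refine Finset.sum_congr rfl fun i _ => ?_
    rw [← Finset.sum_add_distrib]
    refine Finset.sum_congr rfl fun g _ => ?_
    rw [aadd, map_add, mul_add]
  have osq : ∀ y ∈ Y, om y y = 0 := fun y hy => by rw [hom]; exact hQ y hy
  have osym : ∀ x ∈ Y, ∀ y ∈ Y, om x y = om y x := by
    intro x hx y hy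
    have h1 := osq (x + y) (Y.add_mem hx hy)
    rw [oaddl, oaddr, oaddr, osq x hx, osq y hy, zero_add, add_zero] at h1
    exact CharTwo.add_eq_zero.1 h1
  have otau : ∀ x y, om x y = ∑ i, H26OD.tau (fe act (r i) x * H26OD.st (fe act (u i) y)) := by
    intro x y
    rw [hom]
    refine Finset.sum_congr rfl fun i _ => ?_
    rw [H26OD.tau_mul_st]
    refine Fintype.sum_equiv (Equiv.inv G) _ _ fun g => ?_
    unfold fe
    rw [H88OD.coeff_mk, H88OD.coeff_mk]
    change _ = r i (act g⁻¹⁻¹ x) * u i (act g⁻¹⁻¹ y)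
    rw [inv_inv]
  -- the coordinates
  have hfe : ∀ (l : V →+ ZMod 2) x g, (fe act l x).coeff g = l (act g⁻¹ x) := fun l x g =>
    H88OD.coeff_mk _ g
  have Radd : ∀ x y i, fe act (r i) (x + y) = fe act (r i) x + fe act (r i) y := by
    intro x y i
    ext g
    rw [MonoidAlgebra.coeff_add, Finsupp.add_apply, hfe, hfe, hfe, aadd, map_add]
  have Rinj : ∀ x ∈ Y, (∀ i, fe act (r i) x = 0) → x = 0 := by
    intro x hx h
    refine hker x hx fun i g => ?_
    have h1 := hfe (r i) x g⁻¹
    rw [h, inv_inv] at h1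
    exact h1.symm
  obtain ⟨R, hR⟩ : ∃ R : Y → ∀ i, {a : RG G // a * e i = a}, ∀ y i,
      (R y i : RG G) = fe act (r i) (y : V) :=
    ⟨fun y i => ⟨fe act (r i) (y : V), hre _ y.2 i⟩, fun _ _ => rfl⟩
  have Rinj' : Function.Injective R := by
    intro x y hxy
    apply Subtype.ext
    have h1 := Rinj ((x : V) - y) (Y.sub_mem x.2 y.2) fun i => by
      have h2 := Radd ((x : V) - y) y i
      rw [sub_add_cancel] at h2
      have h3 : fe act (r i) (x : V) = fe act (r i) (y : V) := by
        rw [← hR, ← hR, hxy]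
      rw [h3] at h2
      exact right_eq_add.1 h2
    exact sub_eq_zero.1 h1
  have hfRG : Finite (RG G) := by
    have e : RG G ≃ (G → ZMod 2) :=
      ⟨fun a g => a.coeff g, fun f => H88OD.mk f, fun a => by ext g; rfl, fun f => rfl⟩
    exact Finite.of_equiv _ e.symm
  have hfin : Finite Y := Finite.of_injective R Rinj'
  have Rbij : Function.Bijective R := by
    refine (Nat.bijective_iff_injective_and_card _).2 ⟨Rinj', le_antisymm ?_ ?_⟩
    · exact Nat.card_le_card_of_injective _ Rinj'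
    · rw [Nat.card_pi]
      exact hcard
  have Rsurj : ∀ a : ι → RG G, (∀ i, a i * e i = a i) → ∃ y ∈ Y, ∀ i, fe act (r i) y = a i := by
    intro a ha
    obtain ⟨y, hy⟩ := Rbij.2 fun i => ⟨a i, ha i⟩
    exact ⟨y, y.2, fun i => by rw [← hR, hy]⟩
  refine ⟨⟨Y, stb, ι, inferInstance, e, ee, es, eo, par, fun x i => fe act (r i) x,
    fun x _ y _ i => Radd x y i, hre, Rinj, Rsurj, ?_, om,
    fun x _ x' _ y _ => oaddl x x' y, osym, ?_, ?_, ?_⟩⟩
  · intro g y _ i
    ext k
    rw [coeff_of_mul2, hfe, hfe, ← amul, mul_inv_rev, inv_inv]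
  · intro g x _ y _
    rw [hom, hom]
    refine Finset.sum_congr rfl fun i _ => ?_
    refine Fintype.sum_equiv (Equiv.mulRight g) _ _ fun h => ?_
    change _ = r i (act (h * g) x) * u i (act (h * g) y)
    rw [amul, amul]
  · intro g hg x hx
    by_cases h1 : g = 1
    · rw [h1, a1]
      exact osq x hx
    · rw [hom]
      exact hinv g hg h1 x hx
  · intro x
    rw [hW]
    refine and_congr_right fun hx => ⟨fun h y _ => ?_, fun h i g => ?_⟩
    · rw [hom]
      refine Finset.sum_eq_zero fun i _ => Finset.sum_eq_zero fun g _ => ?_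
      rw [h, mul_zero]
    · have h1 : H26OD.st (fe act (u i) x) = 0 := by
        apply H26OD.eq_zero_of_tau
        intro a
        obtain ⟨y, hy, hRy⟩ := Rsurj (fun j => if j = i then a * e i else 0) (fun j => by
          by_cases hj : j = i
          · rw [if_pos hj, hj, mul_assoc, ee]
          · rw [if_neg hj, zero_mul])
        have h1 := h y hy
        rw [otau, Finset.sum_eq_single i, hRy, if_pos rfl, mul_assoc] at h1
        · have h2 : e i * H26OD.st (fe act (u i) x) = H26OD.st (fe act (u i) x) := by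
            conv_rhs => rw [← hue x hx i, H26OD.st_mul, es]
          rwa [h2] at h1
        · intro j _ hj
          rw [hRy, if_neg hj, zero_mul, H26OD.tau_zero]
        · intro h
          exact absurd (Finset.mem_univ _) h
      have h2 : fe act (u i) x = 0 := by
        rw [← H26OD.st_st (fe act (u i) x), h1, H26OD.st_zero]
      have h3 := hfe (u i) x g⁻¹
      rw [h2, inv_inv] at h3
      exact h3.symm

end H49GN
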