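import Pool.Agent.H49.GN.Al

/-!
MP_78d38b_GN2 (helper49): completion of a projective module `A e` (`e` a self adjoint idempotent of an odd subgroup) to a free
module by a module with a nondegenerate even form.
-/

set_option autoImplicit false
open scoped Classical

namespace H49GN

open H26OD (RG rg_induction coeff_eq_tau coeff_st)

variable {G : Type} [Group G]

/-- A self adjoint element without coefficients at the `g` with `g ^ 2 = 1`. -/
theorem even_conj (f : RG G) (hf : H26OD.st f = f) (h : ∀ g : G, g * g = 1 → f.coeff g = 0) (z : RG G)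
    (g : G) (hg : g * g = 1) :
    H26OD.tau (z * f * H26OD.st z * MonoidAlgebra.of (ZMod 2) G g) = 0 := by
  have hgi : g⁻¹ = g := inv_eq_of_mul_eq_one_right hg
  have hsg : H26OD.st (MonoidAlgebra.of (ZMod 2) G g) = MonoidAlgebra.of (ZMod 2) G g := by
    rw [H26OD.st_of, hgi]
  induction z using rg_induction with
  | h0 => rw [zero_mul, zero_mul, zero_mul, H26OD.tau_zero]
  | hof k =>
    rw [H26OD.st_of, mul_assoc, mul_assoc, H26OD.tau_mul_comm, mul_assoc, mul_assoc, ← map_mul,
      ← map_mul, H26OD.tau_mul_comm]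
    have h1 : (k⁻¹ * (g * k))⁻¹ * (k⁻¹ * (g * k))⁻¹ = 1 := by
      rw [← mul_inv_rev, inv_eq_one]
      calc k⁻¹ * (g * k) * (k⁻¹ * (g * k)) = k⁻¹ * (g * g) * k := by group
        _ = 1 := by rw [hg]; group
    have h2 := h _ h1
    rw [coeff_eq_tau, inv_inv] at h2
    exact h2
  | hadd a b ha hb =>
    have h1 : H26OD.tau (b * f * H26OD.st a * MonoidAlgebra.of (ZMod 2) G g) =
        H26OD.tau (a * f * H26OD.st b * MonoidAlgebra.of (ZMod 2) G g) := by
      rw [← H26OD.tau_st, H26OD.st_mul, H26OD.st_mul, H26OD.st_mul, H26OD.st_st, hsg, hf,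
        H26OD.tau_mul_comm, mul_assoc a f]
    rw [H26OD.st_add, add_mul, add_mul, mul_add, mul_add, add_mul, add_mul, add_mul,
      H26OD.tau_add, H26OD.tau_add, H26OD.tau_add, ha, hb, h1]
    rw [zero_add, add_zero]
    exact CharTwo.add_self_eq_zero _

/-- The form on the completion. -/
noncomputable def qf (e : RG G) (x y : RG G × RG G) : ZMod 2 :=
  if H26OD.tau e = 0 then
    H26OD.tau (x.1 * H26OD.st y.2) + H26OD.tau (x.2 * H26OD.st y.1) +
      H26OD.tau (x.2 * e * H26OD.st y.2)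
  else H26OD.tau (x.1 * H26OD.st y.1)

/-- The completion. -/
def Zf (e : RG G) : AddSubgroup (RG G × RG G) where
  carrier := {x | x.1 * e = 0 ∧ (H26OD.tau e ≠ 0 → x.2 = 0)}
  zero_mem' := ⟨zero_mul e, fun _ => rfl⟩
  add_mem' := fun {x y} hx hy => ⟨by
    change (x.1 + y.1) * e = 0
    rw [add_mul, hx.1, hy.1, add_zero], fun h => by
    change x.2 + y.2 = 0
    rw [hx.2 h, hy.2 h, add_zero]⟩
  neg_mem' := fun {x} hx => ⟨by
    change (-x.1) * e = 0
    rw [neg_mul, hx.1, neg_zero], fun h => by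
    change -x.2 = 0
    rw [hx.2 h, neg_zero]⟩

theorem mem_Zf (e : RG G) (x : RG G × RG G) :
    x ∈ Zf e ↔ x.1 * e = 0 ∧ (H26OD.tau e ≠ 0 → x.2 = 0) := Iff.rfl

theorem Zf_act (e : RG G) (g : G) (x : RG G × RG G) (hx : x ∈ Zf e) :
    (MonoidAlgebra.of (ZMod 2) G g * x.1, MonoidAlgebra.of (ZMod 2) G g * x.2) ∈ Zf e := by
  refine ⟨?_, fun h => ?_⟩
  · change MonoidAlgebra.of (ZMod 2) G g * x.1 * e = 0
    rw [mul_assoc, hx.1, mul_zero]
  · change MonoidAlgebra.of (ZMod 2) G g * x.2 = 0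
    rw [hx.2 h, mul_zero]

theorem qf_add (e : RG G) (x x' y : RG G × RG G) : qf e (x + x') y = qf e x y + qf e x' y := by
  unfold qf
  split_ifs with h
  · rw [Prod.fst_add, Prod.snd_add, add_mul, add_mul, add_mul, add_mul, H26OD.tau_add,
      H26OD.tau_add, H26OD.tau_add]
    ring
  · rw [Prod.fst_add, add_mul, H26OD.tau_add]

theorem tau_swap (x y : RG G) : H26OD.tau (x * H26OD.st y) = H26OD.tau (y * H26OD.st x) := by
  rw [← H26OD.tau_st, H26OD.st_mul, H26OD.st_st]

theorem qf_symm {e : RG G} (es : H26OD.st e = e) (x y : RG G × RG G) : qf e x y = qf e y x := by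
  unfold qf
  split_ifs with h
  · rw [tau_swap x.1, tau_swap x.2 y.1, tau_swap (x.2 * e), H26OD.st_mul, es, mul_assoc y.2]
    ring
  · exact tau_swap _ _

theorem tau_act (g : G) (x y : RG G) :
    H26OD.tau (MonoidAlgebra.of (ZMod 2) G g * x * H26OD.st (MonoidAlgebra.of (ZMod 2) G g * y)) =
      H26OD.tau (x * H26OD.st y) := by
  rw [H26OD.st_mul, H26OD.st_of, H26OD.tau_mul_comm, ← mul_assoc, mul_assoc (H26OD.st y), ← map_mul,
    inv_mul_cancel, map_one, mul_one, H26OD.tau_mul_comm]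

theorem qf_act (e : RG G) (g : G) (x y : RG G × RG G) :
    qf e (MonoidAlgebra.of (ZMod 2) G g * x.1, MonoidAlgebra.of (ZMod 2) G g * x.2)
      (MonoidAlgebra.of (ZMod 2) G g * y.1, MonoidAlgebra.of (ZMod 2) G g * y.2) = qf e x y := by
  unfold qf
  dsimp only
  rw [tau_act, tau_act, mul_assoc (MonoidAlgebra.of (ZMod 2) G g) x.2 e, tau_act, tau_act]

theorem qf_inv {e : RG G} (es : H26OD.st e = e)
    (eo : ∀ g : G, g * g = 1 → g ≠ 1 → e.coeff g = 0) (g : G) (hg : g * g = 1)
    (x : RG G × RG G) (hx : x ∈ Zf e) :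
    qf e x (MonoidAlgebra.of (ZMod 2) G g * x.1, MonoidAlgebra.of (ZMod 2) G g * x.2) = 0 := by
  have hgi : g⁻¹ = g := inv_eq_of_mul_eq_one_right hg
  have hsg : H26OD.st (MonoidAlgebra.of (ZMod 2) G g) = MonoidAlgebra.of (ZMod 2) G g := by
    rw [H26OD.st_of, hgi]
  unfold qf
  dsimp only
  split_ifs with h
  · have h1 : H26OD.tau (x.2 * H26OD.st (MonoidAlgebra.of (ZMod 2) G g * x.1)) =
        H26OD.tau (x.1 * H26OD.st (MonoidAlgebra.of (ZMod 2) G g * x.2)) := by
      rw [tau_swap, H26OD.st_mul, hsg, mul_assoc, H26OD.tau_mul_comm, mul_assoc]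
    have h2 : ∀ g : G, g * g = 1 → e.coeff g = 0 := fun g hg => by
      by_cases hg1 : g = 1
      · rw [hg1]
        exact h
      · exact eo g hg hg1
    have h3 := even_conj e es h2 x.2 g hg
    rw [h1, CharTwo.add_self_eq_zero, zero_add, H26OD.st_mul, hsg, ← mul_assoc, h3]
  · have h0 : H26OD.tau e = 1 := by
      have h1 : ∀ a : ZMod 2, a ≠ 0 → a = 1 := by decide
      exact h1 _ h
    have h2 : ∀ g : G, g * g = 1 → (1 + e : RG G).coeff g = 0 := fun g hg => by
      rw [MonoidAlgebra.coeff_add, Finsupp.add_apply]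
      by_cases hg1 : g = 1
      · rw [hg1]
        change H26OD.tau 1 + H26OD.tau e = 0
        rw [h0, ← map_one (MonoidAlgebra.of (ZMod 2) G), H26OD.tau_of, if_pos rfl]
        rfl
      · rw [eo g hg hg1, ← map_one (MonoidAlgebra.of (ZMod 2) G), coeff_eq_tau, ← map_mul,
          H26OD.tau_of, if_neg, add_zero]
        rw [mul_one, inv_eq_one]
        exact hg1
    have h3 := even_conj (1 + e) (by rw [H26OD.st_add, H26OD.st_one, es]) h2 x.1 g hg
    have h4 : x.1 * (1 + e) = x.1 := by rw [mul_add, mul_one, hx.1, add_zero]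
    rw [h4] at h3
    rw [H26OD.st_mul, hsg, ← mul_assoc, h3]

theorem qf_nd {e : RG G} (ee : e * e = e) (es : H26OD.st e = e) (y : RG G × RG G) (hy : y ∈ Zf e)
    (h : ∀ x ∈ Zf e, qf e x y = 0) : y = 0 := by
  have he : (1 + e) * e = 0 := by rw [add_mul, one_mul, ee, H26OD.add_self]
  by_cases h0 : H26OD.tau e = 0
  · have h1 : (1 + e) * H26OD.st y.2 = 0 := by
      apply H26OD.eq_zero_of_tau
      intro a
      have h2 := h (a * (1 + e), 0) ⟨by
        change a * (1 + e) * e = 0
        rw [mul_assoc, he, mul_zero], fun h => absurd h0 h⟩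
      unfold qf at h2
      rw [if_pos h0] at h2
      dsimp only at h2
      rwa [zero_mul, zero_mul, zero_mul, H26OD.tau_zero, add_zero, add_zero, mul_assoc] at h2
    have h2 : H26OD.st y.1 + e * H26OD.st y.2 = 0 := by
      apply H26OD.eq_zero_of_tau
      intro a
      have h2 := h (0, a) ⟨by
        change 0 * e = 0
        rw [zero_mul], fun h => absurd h0 h⟩
      unfold qf at h2
      rw [if_pos h0] at h2
      dsimp only at h2
      rwa [zero_mul, H26OD.tau_zero, zero_add, mul_assoc, ← H26OD.tau_add, ← mul_add] at h2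
    have h3 : e * H26OD.st y.1 = 0 := by
      have h4 := congrArg H26OD.st hy.1
      rwa [H26OD.st_mul, es, H26OD.st_zero] at h4
    have h4 : e * H26OD.st y.2 = 0 := by
      have h5 : e * (H26OD.st y.1 + e * H26OD.st y.2) = e * 0 := by rw [h2]
      rwa [mul_add, h3, zero_add, ← mul_assoc, ee, mul_zero] at h5
    have h5 : H26OD.st y.1 = 0 := by rwa [h4, add_zero] at h2
    have h6 : H26OD.st y.2 = 0 := by rwa [add_mul, one_mul, h4, add_zero] at h1
    refine Prod.ext ?_ ?_
    · rw [← H26OD.st_st y.1, h5, H26OD.st_zero]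
      rfl
    · rw [← H26OD.st_st y.2, h6, H26OD.st_zero]
      rfl
  · have h1 : (1 + e) * H26OD.st y.1 = 0 := by
      apply H26OD.eq_zero_of_tau
      intro a
      have h2 := h (a * (1 + e), 0) ⟨by
        change a * (1 + e) * e = 0
        rw [mul_assoc, he, mul_zero], fun h => rfl⟩
      unfold qf at h2
      rw [if_neg h0] at h2
      dsimp only at h2
      rwa [mul_assoc] at h2
    have h3 : e * H26OD.st y.1 = 0 := by
      have h4 := congrArg H26OD.st hy.1
      rwa [H26OD.st_mul, es, H26OD.st_zero] at h4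
    have h5 : H26OD.st y.1 = 0 := by rwa [add_mul, one_mul, h3, add_zero] at h1
    refine Prod.ext ?_ (hy.2 h0)
    rw [← H26OD.st_st y.1, h5, H26OD.st_zero]
    rfl

end H49GN
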