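import Pool.Agent.H49.GN2.Ec

/-!
MP_78d38b_GN2 (helper49): the algebra at a place with cyclic decomposition group: sums over the group.
-/

set_option autoImplicit false
open scoped Classical

namespace H49GN

open H26OD (RG coeff_eq_tau)

variable {G V : Type} [Group G] [Fintype G]

/-- The sum over the cosets. -/
noncomputable def csum (act : G → V → V) (H : Subgroup G) (b : V → V → ZMod 2) (x y : V) : ZMod 2 :=
  letI := Fintype.ofFinite (G ⧸ H)
  ∑ q : G ⧸ H, b (act q.out⁻¹ x) (act q.out⁻¹ y)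

theorem sum_cosets (H : Subgroup G) [Fintype H] [Fintype (G ⧸ H)] (F : G → ZMod 2) :
    ∑ g, F g = ∑ q : G ⧸ H, ∑ t : H, F (t * q.out⁻¹) := by
  rw [← Fintype.sum_prod_type' (f := fun (q : G ⧸ H) (t : H) => F (t * q.out⁻¹))]
  refine (Fintype.sum_bijective (fun x : (G ⧸ H) × H => (x.2 : G) * x.1.out⁻¹) ?_ _ _ fun _ => rfl).symm
  constructor
  · rintro ⟨q, t⟩ ⟨q', t'⟩ h
    have h1 : (t : G) * q.out⁻¹ = t' * q'.out⁻¹ := h
    have h2 : q.out * (t : G)⁻¹ = q'.out * (t' : G)⁻¹ := by
      have h3 := congrArg (fun z : G => z⁻¹) h1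
      simpa only [mul_inv_rev, inv_inv] using h3
    have h3 : ∀ (q : G ⧸ H) (t : H), (QuotientGroup.mk (q.out * (t : G)⁻¹) : G ⧸ H) = q := by
      intro q t
      rw [QuotientGroup.mk_mul_of_mem _ (H.inv_mem t.2)]
      exact QuotientGroup.out_eq' q
    have h4 : q = q' := by rw [← h3 q t, h2, h3]
    subst h4
    have h5 : (t : G) = t' := mul_right_cancel h1
    exact Prod.ext rfl (Subtype.ext h5)
  · intro g
    obtain ⟨h, hh⟩ := QuotientGroup.mk_out_eq_mul H g⁻¹
    refine ⟨((g⁻¹ : G), h), ?_⟩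
    change (h : G) * ((g⁻¹ : G) : G ⧸ H).out⁻¹ = g
    rw [hh]
    group

theorem sum_range_per (p : ℕ → ZMod 2) (d k : ℕ) (hp : ∀ j, p (j + d) = p j) :
    ∑ j ∈ Finset.range (d * k), p j = k • ∑ j ∈ Finset.range d, p j := by
  have h1 : ∀ k j, p (d * k + j) = p j := by
    intro k
    induction k with
    | zero =>
      intro j
      rw [mul_zero, zero_add]
    | succ k ih =>
      intro j
      have e : d * (k + 1) + j = (d * k + j) + d := by ring
      rw [e, hp, ih]
  induction k with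
  | zero => rw [mul_zero, Finset.range_zero, Finset.sum_empty, zero_smul]
  | succ k ih =>
    rw [mul_add, mul_one, Finset.sum_range_add, ih, add_smul, one_smul]
    congr 1
    exact Finset.sum_congr rfl fun j _ => h1 k j

theorem sum_zpowers (σ : G) [Fintype (Subgroup.zpowers σ)] (P : G → ZMod 2) {d k : ℕ}
    (h : orderOf σ = d * k) (hk : Odd k) (hP : ∀ j : ℕ, P (σ ^ (j + d)) = P (σ ^ j)) :
    ∑ t : Subgroup.zpowers σ, P t = ∑ j ∈ Finset.range d, P (σ ^ j) := by
  have h1 : ∑ t : Subgroup.zpowers σ, P t = ∑ j ∈ Finset.range (orderOf σ), P (σ ^ j) := by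
    rw [Finset.sum_range]
    refine (Fintype.sum_equiv (finEquivZPowers (isOfFinOrder_of_finite σ)) _ _ fun j => ?_).symm
    rfl
  rw [h1, h, sum_range_per (fun j => P (σ ^ j)) d k hP, odd_smul hk]

end H49GN
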