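import Pool.Agent.H49.GN2.Sp

/-!
MP_78d38b_GN2 (helper49): the algebra at a place with cyclic decomposition group `⟨σ⟩`.
-/

set_option autoImplicit false
open scoped Classical

namespace H49GN

open H26OD (RG coeff_eq_tau)

variable {G V : Type} [Group G] [Fintype G] [AddCommGroup V]

/-- The data at a place with decomposition group `H`: `b` is the local pairing, `KR` and `KU` its two kernels. -/
structure SpOut (act : G → V → V) (X : AddSubgroup V) (H : Subgroup G) (m : ℕ)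
    (b : V → V → ZMod 2) (KR KU : V → Prop) where
  κ : Type
  fin : Fintype κ
  e : κ → RG G
  ee : ∀ k, e k * e k = e k
  es : ∀ k, H26OD.st (e k) = e k
  eo : ∀ k, ∀ g : G, g * g = 1 → g ≠ 1 → (e k).coeff g = 0
  r : κ → V →+ ZMod 2
  u : κ → V →+ ZMod 2
  hre : ∀ x ∈ X, ∀ k, fe act (r k) x * e k = fe act (r k) x
  hue : ∀ x ∈ X, ∀ k, fe act (u k) x * e k = fe act (u k) x
  hr : ∀ x ∈ X, (∀ k g, r k (act g x) = 0) → ∀ g, KR (act g x)
  hu : ∀ x ∈ X, ((∀ k g, u k (act g x) = 0) ↔ ∀ g, KU (act g x))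
  card : ∏ k, Nat.card {a : RG G // a * e k = a} = 2 ^ (m * H.index)
  par : ∑ k, H26OD.tau (e k) = if Odd (Nat.card H) then (m : ZMod 2) else ((m / 2 : ℕ) : ZMod 2)
  sum : ∀ x ∈ X, ∀ y ∈ X, ∑ k, ∑ g, r k (act g x) * u k (act g y) = csum act H b x y

variable {act : G → V → V} {X : AddSubgroup V}

theorem fe_coeff (l : V →+ ZMod 2) (x : V) (g : G) : (fe act l x).coeff g = l (act g⁻¹ x) :=
  H88OD.coeff_mk _ g

theorem fe_eC (amul : ∀ g h x, act (g * h) x = act g (act h x)) (stb : ∀ g, ∀ x ∈ X, act g x ∈ X)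
    {C : Subgroup G} (hC : Odd (Nat.card C)) {l : V →+ ZMod 2}
    (hl : ∀ z ∈ X, ∀ c ∈ C, l (act c z) = l z) {x : V} (hx : x ∈ X) :
    fe act l x * eC C = fe act l x := by
  rw [mul_eC_iff hC]
  intro g c hc
  rw [fe_coeff, fe_coeff, mul_inv_rev, amul, hl _ (stb _ _ hx) _ (C.inv_mem hc)]

theorem inv_zp (a1 : ∀ x, act 1 x = x) (amul : ∀ g h x, act (g * h) x = act g (act h x))
    (stb : ∀ g, ∀ x ∈ X, act g x ∈ X) {τ : G} {l : V →+ ZMod 2}
    (hl : ∀ z ∈ X, l (act τ z) = l z) : ∀ z ∈ X, ∀ c ∈ Subgroup.zpowers τ, l (act c z) = l z := by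
  intro z hz c hc
  rw [← mem_powers_iff_mem_zpowers] at hc
  obtain ⟨n, rfl⟩ := hc
  change l (act (τ ^ n) z) = l z
  induction n with
  | zero => rw [pow_zero, a1]
  | succ n ih => rw [pow_succ', amul, hl _ (stb _ _ hz), ih]

theorem sum_H (a1 : ∀ x, act 1 x = x) (amul : ∀ g h x, act (g * h) x = act g (act h x))
    (stb : ∀ g, ∀ x ∈ X, act g x ∈ X) (σ : G) [Fintype (Subgroup.zpowers σ)] {d k : ℕ}
    (h : orderOf σ = d * k) (hk : Odd k) {l : V →+ ZMod 2}
    (hl : ∀ z ∈ X, l (act (σ ^ d) z) = l z) {z : V} (hz : z ∈ X) :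
    ∑ t : Subgroup.zpowers σ, l (act t z) = ∑ j ∈ Finset.range d, l (act (σ ^ j) z) :=
  sum_zpowers σ (fun t => l (act t z)) h hk fun j => by
    change l (act (σ ^ (j + d)) z) = l (act (σ ^ j) z)
    rw [add_comm, pow_add, amul, hl _ (stb _ _ hz)]

theorem sum_G (a1 : ∀ x, act 1 x = x) (amul : ∀ g h x, act (g * h) x = act g (act h x))
    (stb : ∀ g, ∀ x ∈ X, act g x ∈ X) (σ : G) {d k : ℕ}
    (h : orderOf σ = d * k) (hk : Odd k) {l α : V →+ ZMod 2}
    (hl : ∀ z ∈ X, l (act (σ ^ d) z) = l z) (hα : ∀ z ∈ X, α (act (σ ^ d) z) = α z) {x y : V}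
    (hx : x ∈ X) (hy : y ∈ X) :
    ∑ g, l (act g x) * α (act g y) = csum act (Subgroup.zpowers σ)
      (fun x y => ∑ j ∈ Finset.range d, l (act (σ ^ j) x) * α (act (σ ^ j) y)) x y := by
  unfold csum
  let _ : Fintype (Subgroup.zpowers σ) := Fintype.ofFinite _
  let _ : Fintype (G ⧸ Subgroup.zpowers σ) := Fintype.ofFinite _
  rw [sum_cosets (Subgroup.zpowers σ) (fun g => l (act g x) * α (act g y))]
  refine Finset.sum_congr rfl fun q _ => ?_
  refine Eq.trans (sum_zpowers σ (fun t => l (act (t * q.out⁻¹) x) * α (act (t * q.out⁻¹) y)) h hk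
    fun j => ?_) (Finset.sum_congr rfl fun j _ => ?_)
  · change l (act (σ ^ (j + d) * q.out⁻¹) x) * α (act (σ ^ (j + d) * q.out⁻¹) y) =
      l (act (σ ^ j * q.out⁻¹) x) * α (act (σ ^ j * q.out⁻¹) y)
    rw [add_comm, pow_add, mul_assoc, amul (σ ^ d), amul (σ ^ d), hl _ (stb _ _ hx),
      hα _ (stb _ _ hy)]
  · change l (act (σ ^ j * q.out⁻¹) x) * α (act (σ ^ j * q.out⁻¹) y) = _
    rw [amul (σ ^ j), amul (σ ^ j)]

theorem csum_congr (stb : ∀ g, ∀ x ∈ X, act g x ∈ X) (H : Subgroup G) {b b' : V → V → ZMod 2}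
    (h : ∀ x ∈ X, ∀ y ∈ X, b x y = b' x y) {x y : V} (hx : x ∈ X) (hy : y ∈ X) :
    csum act H b x y = csum act H b' x y := by
  unfold csum
  exact Finset.sum_congr rfl fun q _ => h _ (stb _ _ hx) _ (stb _ _ hy)

theorem csum_sum (H : Subgroup G) {κ : Type} [Fintype κ] (b : κ → V → V → ZMod 2) (x y : V) :
    ∑ k, csum act H (b k) x y = csum act H (fun x y => ∑ k, b k x y) x y := by
  unfold csum
  rw [Finset.sum_comm]

/-- Trivial action. -/
theorem split_one (a1 : ∀ x, act 1 x = x) (amul : ∀ g h x, act (g * h) x = act g (act h x))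
    (stb : ∀ g, ∀ x ∈ X, act g x ∈ X) (σ : G) (hodd : Odd (orderOf σ)) {m : ℕ}
    (r u : Fin m → V →+ ZMod 2) (hr : ∀ x ∈ X, ∀ j, r j (act σ x) = r j x)
    (hu : ∀ x ∈ X, ∀ j, u j (act σ x) = u j x) {b : V → V → ZMod 2} {KR KU : V → Prop}
    (hb : ∀ x ∈ X, ∀ y ∈ X, b x y = ∑ j, r j x * u j y)
    (hKR : ∀ x ∈ X, KR x ↔ ∀ j, r j x = 0) (hKU : ∀ x ∈ X, KU x ↔ ∀ j, u j x = 0) :
    Nonempty (SpOut act X (Subgroup.zpowers σ) m b KR KU) := by
  have hH : Odd (Nat.card (Subgroup.zpowers σ)) := by rwa [Nat.card_zpowers]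
  refine ⟨⟨Fin m, inferInstance, fun _ => eC (Subgroup.zpowers σ), fun _ => eC_idem hH,
    fun _ => eC_st _, fun _ => eC_odd hH, r, u, fun x hx k => ?_, fun x hx k => ?_, fun x hx h g => ?_,
    fun x hx => ?_, ?_, ?_, fun x hx y hy => ?_⟩⟩
  · exact fe_eC amul stb hH (inv_zp a1 amul stb fun z hz => hr z hz k) hx
  · exact fe_eC amul stb hH (inv_zp a1 amul stb fun z hz => hu z hz k) hx
  · exact (hKR _ (stb _ _ hx)).2 fun j => h j g
  · exact ⟨fun h g => (hKU _ (stb _ _ hx)).2 fun j => h j g,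
      fun h j g => (hKU _ (stb _ _ hx)).1 (h g) j⟩
  · rw [Finset.prod_congr rfl fun _ _ => card_eC hH, Finset.prod_const, Finset.card_univ,
      Fintype.card_fin, ← pow_mul, mul_comm]
  · rw [if_pos hH, Finset.sum_congr rfl fun _ _ => eC_tau _, Finset.sum_const, Finset.card_univ,
      Fintype.card_fin, nsmul_eq_mul, mul_one]
  · rw [csum_congr stb _ hb hx hy, ← csum_sum]
    refine Finset.sum_congr rfl fun j _ => ?_
    rw [sum_G a1 amul stb σ (d := 1) (one_mul _).symm hodd (fun z hz => by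
      rw [pow_one]
      exact hr z hz j) (fun z hz => by
      rw [pow_one]
      exact hu z hz j) hx hy]
    refine csum_congr stb _ (fun x _ y _ => ?_) hx hy
    rw [Finset.sum_range_one, pow_zero, a1, a1]

/-- No condition. -/
theorem split_zero (σ : G) {b : V → V → ZMod 2} {KR KU : V → Prop}
    (stb : ∀ g, ∀ x ∈ X, act g x ∈ X)
    (hb : ∀ x ∈ X, ∀ y ∈ X, b x y = 0)
    (hKR : ∀ x ∈ X, KR x) (hKU : ∀ x ∈ X, KU x) :
    Nonempty (SpOut act X (Subgroup.zpowers σ) 0 b KR KU) := by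
  refine ⟨⟨Fin 0, inferInstance, fun j => j.elim0, fun j => j.elim0, fun j => j.elim0,
    fun j => j.elim0, fun j => j.elim0, fun j => j.elim0, fun _ _ j => j.elim0,
    fun _ _ j => j.elim0, fun x hx _ g => hKR _ (stb _ _ hx), fun x hx => ?_, ?_, ?_,
    fun x hx y hy => ?_⟩⟩
  · exact ⟨fun _ g => hKU _ (stb _ _ hx), fun _ j => j.elim0⟩
  · rw [Finset.univ_eq_empty, Finset.prod_empty, zero_mul, pow_zero]
  · rw [Finset.univ_eq_empty, Finset.sum_empty, Nat.zero_div, Nat.cast_zero]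
    split_ifs <;> rfl
  · rw [Finset.univ_eq_empty, Finset.sum_empty]
    unfold csum
    exact (Finset.sum_eq_zero fun q _ => hb _ (stb _ _ hx) _ (stb _ _ hy)).symm

/-- Action of order two. -/
theorem split_two (a1 : ∀ x, act 1 x = x) (amul : ∀ g h x, act (g * h) x = act g (act h x))
    (stb : ∀ g, ∀ x ∈ X, act g x ∈ X) (σ : G) {k : ℕ} (hk : Odd k) (ho : orderOf σ = 2 * k)
    (l α : V →+ ZMod 2) (hl : ∀ x ∈ X, l (act (σ ^ 2) x) = l x)
    (hα : ∀ x ∈ X, α (act (σ ^ 2) x) = α x) {b : V → V → ZMod 2} {KR KU : V → Prop}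
    (hb : ∀ x ∈ X, ∀ y ∈ X, b x y = l x * α y + l (act σ x) * α (act σ y))
    (hKR : ∀ x ∈ X, KR x ↔ l x = 0 ∧ l (act σ x) = 0)
    (hKU : ∀ x ∈ X, KU x ↔ α x = 0 ∧ α (act σ x) = 0) :
    Nonempty (SpOut act X (Subgroup.zpowers σ) 2 b KR KU) := by
  have hfin : orderOf σ ≠ 0 := (orderOf_pos σ).ne'
  have hoC : orderOf (σ ^ 2) = k := by
    rw [orderOf_pow' _ (by norm_num), ho, Nat.gcd_eq_right (Dvd.intro k rfl),
      Nat.mul_div_cancel_left _ (by norm_num)]
  have hcH : Nat.card (Subgroup.zpowers σ) = 2 * k := by rw [Nat.card_zpowers, ho]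
  have hcC : Nat.card (Subgroup.zpowers (σ ^ 2)) = k := by rw [Nat.card_zpowers, hoC]
  have hC : Odd (Nat.card (Subgroup.zpowers (σ ^ 2))) := by rwa [hcC]
  have hi : (Subgroup.zpowers (σ ^ 2)).index = 2 * (Subgroup.zpowers σ).index := by
    have h4 := (Subgroup.zpowers (σ ^ 2)).card_mul_index
    have h5 := (Subgroup.zpowers σ).card_mul_index
    rw [hcC] at h4
    rw [hcH] at h5
    have h6 : 0 < k := hk.pos
    have h7 : k * (Subgroup.zpowers (σ ^ 2)).index = k * (2 * (Subgroup.zpowers σ).index) := by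
      rw [h4, ← h5]
      ring
    exact Nat.eq_of_mul_eq_mul_left h6 h7
  refine ⟨⟨Unit, inferInstance, fun _ => eC (Subgroup.zpowers (σ ^ 2)), fun _ => eC_idem hC,
    fun _ => eC_st _, fun _ => eC_odd hC, fun _ => l, fun _ => α, fun x hx k => ?_, fun x hx k => ?_,
    fun x hx h g => ?_, fun x hx => ?_, ?_, ?_, fun x hx y hy => ?_⟩⟩
  · exact fe_eC amul stb hC (inv_zp a1 amul stb hl) hx
  · exact fe_eC amul stb hC (inv_zp a1 amul stb hα) hx
  · refine (hKR _ (stb _ _ hx)).2 ⟨h () g, ?_⟩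
    rw [← amul]
    exact h () _
  · refine ⟨fun h g => (hKU _ (stb _ _ hx)).2 ⟨h () g, ?_⟩,
      fun h j g => ((hKU _ (stb _ _ hx)).1 (h g)).1⟩
    rw [← amul]
    exact h () _
  · rw [Finset.univ_unique, Finset.prod_singleton, card_eC hC, hi]
  · rw [Finset.univ_unique, Finset.sum_singleton, eC_tau, if_neg]
    · rfl
    · rw [hcH, Nat.not_odd_iff_even]
      exact even_two_mul k
  · rw [Finset.univ_unique, Finset.sum_singleton, sum_G a1 amul stb σ ho hk hl hα hx hy]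
    refine csum_congr stb _ (fun x hx y hy => ?_) hx hy
    rw [hb x hx y hy, Finset.sum_range_succ, Finset.sum_range_one, pow_zero, pow_one, a1, a1]

/-- Action of order three. -/
theorem split_three (a1 : ∀ x, act 1 x = x) (amul : ∀ g h x, act (g * h) x = act g (act h x))
    (stb : ∀ g, ∀ x ∈ X, act g x ∈ X) (σ : G) {k : ℕ} (hk : Odd k) (ho : orderOf σ = 3 * k)
    (l α : V →+ ZMod 2) (hl : ∀ x ∈ X, l (act (σ ^ 2) x) = l x + l (act σ x))
    (hα : ∀ x ∈ X, α (act (σ ^ 2) x) = α x + α (act σ x)) {b : V → V → ZMod 2} {KR KU : V → Prop}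
    (hb : ∀ x ∈ X, ∀ y ∈ X, b x y = l x * α y + l (act σ x) * α (act σ y) +
      l (act (σ ^ 2) x) * α (act (σ ^ 2) y))
    (hKR : ∀ x ∈ X, KR x ↔ l x = 0 ∧ l (act σ x) = 0)
    (hKU : ∀ x ∈ X, KU x ↔ α x = 0 ∧ α (act σ x) = 0) :
    Nonempty (SpOut act X (Subgroup.zpowers σ) 2 b KR KU) := by
  have hoC : orderOf (σ ^ 3) = k := by
    rw [orderOf_pow' _ (by norm_num), ho, Nat.gcd_eq_right (Dvd.intro k rfl),
      Nat.mul_div_cancel_left _ (by norm_num)]
  have hcH : Nat.card (Subgroup.zpowers σ) = 3 * k := by rw [Nat.card_zpowers, ho]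
  have hcC : Nat.card (Subgroup.zpowers (σ ^ 3)) = k := by rw [Nat.card_zpowers, hoC]
  have hC : Odd (Nat.card (Subgroup.zpowers (σ ^ 3))) := by rwa [hcC]
  have hH : Odd (Nat.card (Subgroup.zpowers σ)) := by
    rw [hcH]
    exact Odd.mul (by decide) hk
  have hle : Subgroup.zpowers (σ ^ 3) ≤ Subgroup.zpowers σ := by
    rw [Subgroup.zpowers_le]
    exact Subgroup.pow_mem _ (Subgroup.mem_zpowers σ) 3
  have h3 : Nat.card (Subgroup.zpowers σ) = 3 * Nat.card (Subgroup.zpowers (σ ^ 3)) := by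
    rw [hcH, hcC]
  have hcube : ∀ l : V →+ ZMod 2, (∀ x ∈ X, l (act (σ ^ 2) x) = l x + l (act σ x)) →
      ∀ x ∈ X, l (act (σ ^ 3) x) = l x := by
    intro l hl x hx
    have e : σ ^ 3 = σ ^ 2 * σ := pow_succ σ 2
    rw [e, amul, hl _ (stb _ _ hx), ← amul, ← sq, hl _ hx, add_comm, add_assoc,
      CharTwo.add_self_eq_zero, add_zero]
  have hz : ∀ l : V →+ ZMod 2, (∀ x ∈ X, l (act (σ ^ 2) x) = l x + l (act σ x)) →
      ∀ x ∈ X, fe act l x * (eC (Subgroup.zpowers (σ ^ 3)) + eC (Subgroup.zpowers σ)) =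
        fe act l x := by
    intro l hl x hx
    let _ : Fintype (Subgroup.zpowers σ) := Fintype.ofFinite _
    have h1 : fe act l x * eC (Subgroup.zpowers σ) = 0 := by
      ext g
      rw [mul_eC_coeff]
      have h2 : ∑ c : Subgroup.zpowers σ, (fe act l x).coeff (g * c) =
          ∑ c : Subgroup.zpowers σ, l (act c (act g⁻¹ x)) := by
        refine Fintype.sum_equiv (Equiv.inv _) _ _ fun c => ?_
        rw [fe_coeff, mul_inv_rev, amul]
        rfl
      rw [h2, sum_H a1 amul stb σ ho hk (hcube l hl) (stb _ _ hx), Finset.sum_range_succ,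
        Finset.sum_range_succ, Finset.sum_range_one, pow_zero, pow_one, a1, hl _ (stb _ _ hx),
        CharTwo.add_self_eq_zero]
      rfl
    rw [mul_add, h1, add_zero]
    exact fe_eC amul stb hC (inv_zp a1 amul stb (hcube l hl)) hx
  refine ⟨⟨Unit, inferInstance, fun _ => eC (Subgroup.zpowers (σ ^ 3)) + eC (Subgroup.zpowers σ),
    fun _ => e3_idem hC hH hle, fun _ => ?_, fun _ g hg hg1 => ?_, fun _ => l, fun _ => α,
    fun x hx k => hz l hl x hx, fun x hx k => hz α hα x hx,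
    fun x hx h g => ?_, fun x hx => ?_, ?_, ?_, fun x hx y hy => ?_⟩⟩
  · rw [H26OD.st_add, eC_st, eC_st]
  · rw [MonoidAlgebra.coeff_add, Finsupp.add_apply, eC_odd hC g hg hg1, eC_odd hH g hg hg1, add_zero]
  · refine (hKR _ (stb _ _ hx)).2 ⟨h () g, ?_⟩
    rw [← amul]
    exact h () _
  · refine ⟨fun h g => (hKU _ (stb _ _ hx)).2 ⟨h () g, ?_⟩,
      fun h j g => ((hKU _ (stb _ _ hx)).1 (h g)).1⟩
    rw [← amul]
    exact h () _
  · rw [Finset.univ_unique, Finset.prod_singleton, card_e3 hC hH hle h3]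
  · rw [Finset.univ_unique, Finset.sum_singleton, H26OD.tau_add, eC_tau, eC_tau, if_pos hH]
    rfl
  · rw [Finset.univ_unique, Finset.sum_singleton,
      sum_G a1 amul stb σ ho hk (hcube l hl) (hcube α hα) hx hy]
    refine csum_congr stb _ (fun x hx y hy => ?_) hx hy
    rw [hb x hx y hy, Finset.sum_range_succ, Finset.sum_range_succ, Finset.sum_range_one, pow_zero,
      pow_one, a1, a1]

end H49GN
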