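import Pool.Agent.H49.GN2.Sq

/-!
MP_78d38b_GN2 (helper49): the algebra at a place with cyclic decomposition group `⟨σ⟩`: all cases.
-/

set_option autoImplicit false
open scoped Classical

namespace H49GN

open H26OD (RG coeff_eq_tau)

variable {G V : Type} [Group G] [Fintype G] [AddCommGroup V] {act : G → V → V} {X : AddSubgroup V}

theorem z2 (a : ZMod 2) : a = 0 ∨ a = 1 := by
  revert a
  decide

/-- A functional in terms of two functionals. -/
theorem lin2 {l l' f : V →+ ZMod 2} (hf : ∀ x ∈ X, l x = 0 → l' x = 0 → f x = 0) {x₁ x₂ : V}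
    (h1 : x₁ ∈ X) (h2 : x₂ ∈ X) (a1 : l x₁ = 1) (a2 : l' x₁ = 0) (b1 : l x₂ = 0) (b2 : l' x₂ = 1)
    {x : V} (hx : x ∈ X) : f x = f x₁ * l x + f x₂ * l' x := by
  rcases z2 (l x) with e | e <;> rcases z2 (l' x) with e' | e'
  · rw [hf x hx e e', e, e', mul_zero, mul_zero, add_zero]
  · have h3 := hf (x + x₂) (X.add_mem hx h2) (by rw [map_add, e, b1, add_zero]) (by
      rw [map_add, e', b2]
      exact CharTwo.add_self_eq_zero _)
    rw [map_add] at h3
    rw [e, e', mul_zero, zero_add, mul_one]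
    exact CharTwo.add_eq_zero.1 h3
  · have h3 := hf (x + x₁) (X.add_mem hx h1) (by
      rw [map_add, e, a1]
      exact CharTwo.add_self_eq_zero _) (by rw [map_add, e', a2, add_zero])
    rw [map_add] at h3
    rw [e, e', mul_zero, add_zero, mul_one]
    exact CharTwo.add_eq_zero.1 h3
  · have h3 := hf (x + x₁ + x₂) (X.add_mem (X.add_mem hx h1) h2) (by
      rw [map_add, map_add, e, a1, b1, add_zero]
      exact CharTwo.add_self_eq_zero _) (by
      rw [map_add, map_add, e', a2, b2, add_zero]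
      exact CharTwo.add_self_eq_zero _)
    rw [map_add, map_add, add_assoc] at h3
    rw [e, e', mul_one, mul_one]
    exact CharTwo.add_eq_zero.1 h3

/-- The kernel is stable under the inverse. -/
theorem ker_back (a1 : ∀ x, act 1 x = x) (amul : ∀ g h x, act (g * h) x = act g (act h x))
    (stb : ∀ g, ∀ x ∈ X, act g x ∈ X) (σ : G) {K : V → Prop}
    (hK : ∀ x ∈ X, K x → K (act σ x)) {x : V} (hx : x ∈ X) (h : K (act σ x)) : K x := by
  have h1 : ∀ n : ℕ, K (act (σ ^ n) (act σ x)) := by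
    intro n
    induction n with
    | zero =>
      rw [pow_zero, a1]
      exact h
    | succ n ih =>
      rw [pow_succ', amul]
      exact hK _ (stb _ _ (stb _ _ hx)) ih
  have h2 := h1 (orderOf σ - 1)
  rw [← amul, ← pow_succ, Nat.sub_add_cancel (orderOf_pos σ), pow_orderOf_eq_one, a1] at h2
  exact h2

/-- The functional composed with the action. -/
noncomputable def cact (aadd : ∀ g x y, act g (x + y) = act g x + act g y) (l : V →+ ZMod 2) (g : G) :
    V →+ ZMod 2 := AddMonoidHom.mk' (fun x => l (act g x)) fun x y => by rw [aadd, map_add]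

theorem split_core (a1 : ∀ x, act 1 x = x) (amul : ∀ g h x, act (g * h) x = act g (act h x))
    (aadd : ∀ g x y, act g (x + y) = act g x + act g y)
    (stb : ∀ g, ∀ x ∈ X, act g x ∈ X) (σ : G) (l l' α β : V →+ ZMod 2) {b : V → V → ZMod 2}
    {KR KU : V → Prop} (hb : ∀ x ∈ X, ∀ y ∈ X, b x y = l x * α y + l' x * β y)
    (hbi : ∀ x ∈ X, ∀ y ∈ X, b (act σ x) (act σ y) = b x y)
    (hl' : ∀ x ∈ X, l (act σ x) = l' x)
    (ho : ∀ s t : ZMod 2, ∃ x ∈ X, l x = s ∧ l' x = t)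
    (hk : ∀ x ∈ X, l x = 0 ∧ l' x = 0 → l (act σ x) = 0 ∧ l' (act σ x) = 0)
    (hKR : ∀ x ∈ X, KR x ↔ l x = 0 ∧ l' x = 0) (hKU : ∀ x ∈ X, KU x ↔ α x = 0 ∧ β x = 0)
    (he : Even (orderOf σ) → ∃ x ∈ X, ¬ (l (act (σ ^ (orderOf σ / 2)) x) = l x ∧
      l' (act (σ ^ (orderOf σ / 2)) x) = l' x)) :
    Nonempty (SpOut act X (Subgroup.zpowers σ) 2 b KR KU) := by
  obtain ⟨x₁, h1, p1, p2⟩ := ho 1 0
  obtain ⟨x₂, h2, q1, q2⟩ := ho 0 1
  -- the matrix
  have hf : ∀ x ∈ X, l' (act σ x) = l' (act σ x₁) * l x + l' (act σ x₂) * l' x := fun x hx =>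
    lin2 (X := X) (f := cact aadd l' σ) (fun x hx e e' => (hk x hx ⟨e, e'⟩).2) h1 h2 p1 p2 q1 q2 hx
  have hp : l' (act σ x₁) = 1 := by
    rcases z2 (l' (act σ x₁)) with e | e
    · exfalso
      have h3 := ker_back (K := fun x => l x = 0 ∧ l' x = 0) a1 amul stb σ hk h1
        ⟨by rw [hl' _ h1, p2], e⟩
      rw [p1] at h3
      exact one_ne_zero h3.1
    · exact e
  have hsq : ∀ x ∈ X, l (act (σ ^ 2) x) = l' (act σ x) := by
    intro x hx
    rw [sq, amul, hl' _ (stb _ _ hx)]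
  -- powers
  have hpow : ∀ (d : ℕ), (∀ x ∈ X, l (act (σ ^ d) x) = l x) → ∀ n : ℕ, ∀ x ∈ X,
      l (act (σ ^ (d * n)) x) = l x := by
    intro d h n x hx
    rw [pow_mul]
    exact inv_zp a1 amul stb h x hx _ (Subgroup.pow_mem _ (Subgroup.mem_zpowers _) n)
  have hcop : ∀ (d : ℕ), (∀ x ∈ X, l (act (σ ^ d) x) = l x) → ¬ Nat.Coprime d (orderOf σ) := by
    intro d h hc
    obtain ⟨n, hn⟩ := exists_pow_eq_self_of_coprime hc
    have h3 := hpow d h n x₁ h1
    rw [pow_mul, hn, hl' _ h1, p1, p2] at h3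
    exact zero_ne_one h3
  have hhalf : ∀ (d n : ℕ), (∀ x ∈ X, l (act (σ ^ d) x) = l x) → Even (orderOf σ) →
      orderOf σ / 2 ≠ d * n := by
    intro d n h hev hn
    obtain ⟨x, hx, hx1⟩ := he hev
    apply hx1
    rw [hn]
    refine ⟨hpow d h n x hx, ?_⟩
    rw [← hl' _ (stb _ _ hx), ← hl' _ hx, ← amul, ← pow_succ', pow_succ, amul]
    exact hpow d h n _ (stb _ _ hx)
  rcases z2 (l' (act σ x₂)) with hq | hq
  · -- order two
    have hl2 : ∀ x ∈ X, l (act (σ ^ 2) x) = l x := by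
      intro x hx
      rw [hsq x hx, hf x hx, hp, hq, zero_mul, add_zero, one_mul]
    have hev : Even (orderOf σ) := by
      have h3 := hcop 2 hl2
      rw [Nat.coprime_two_left, Nat.not_odd_iff_even] at h3
      exact h3
    obtain ⟨k, hk2⟩ := hev
    have hk2' : orderOf σ = 2 * k := by omega
    have hkodd : Odd k := by
      rw [← Nat.not_even_iff_odd]
      rintro ⟨n, hn⟩
      exact hhalf 2 n hl2 ⟨k, hk2⟩ (by omega)
    -- the second functionals
    have e1 : ∀ y ∈ X, β (act σ y) = α y := by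
      intro y hy
      have h3 := hbi _ h1 _ hy
      rw [hb _ (stb _ _ h1) _ (stb _ _ hy), hb _ h1 _ hy, hl' _ h1, p1, p2, hp, zero_mul, zero_add,
        one_mul, one_mul, zero_mul, add_zero] at h3
      exact h3
    have e2 : ∀ y ∈ X, α (act σ y) = β y := by
      intro y hy
      have h3 := hbi _ h2 _ hy
      rw [hb _ (stb _ _ h2) _ (stb _ _ hy), hb _ h2 _ hy, hl' _ h2, q1, q2, hq, zero_mul, add_zero,
        one_mul, one_mul, zero_mul, zero_add] at h3
      exact h3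
    refine split_two a1 amul stb σ hkodd hk2' l α hl2 (fun x hx => ?_) (fun x hx y hy => ?_)
      (fun x hx => ?_) (fun x hx => ?_)
    · rw [sq, amul, e2 _ (stb _ _ hx), e1 _ hx]
    · rw [hb x hx y hy, hl' x hx, e2 y hy]
    · rw [hKR x hx, hl' x hx]
    · rw [hKU x hx, e2 x hx]
  · -- order three
    have hl2 : ∀ x ∈ X, l (act (σ ^ 2) x) = l x + l (act σ x) := by
      intro x hx
      rw [hsq x hx, hf x hx, hp, hq, one_mul, one_mul, hl' x hx]
    have hl3 : ∀ x ∈ X, l (act (σ ^ 3) x) = l x := by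
      intro x hx
      have e : σ ^ 3 = σ ^ 2 * σ := pow_succ σ 2
      rw [e, amul, hl2 _ (stb _ _ hx), ← amul, ← sq, hl2 _ hx, add_comm, add_assoc,
        CharTwo.add_self_eq_zero, add_zero]
    have h3 : 3 ∣ orderOf σ := by
      by_contra h3
      exact hcop 3 hl3 ((Nat.Prime.coprime_iff_not_dvd Nat.prime_three).2 h3)
    obtain ⟨k, hk3⟩ := h3
    have hkodd : Odd k := by
      rw [← Nat.not_even_iff_odd]
      rintro ⟨n, hn⟩
      exact hhalf 3 n hl3 ⟨3 * n, by omega⟩ (by omega)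
    have e1 : ∀ y ∈ X, β (act σ y) = α y := by
      intro y hy
      have h3 := hbi _ h1 _ hy
      rw [hb _ (stb _ _ h1) _ (stb _ _ hy), hb _ h1 _ hy, hl' _ h1, p1, p2, hp, zero_mul, zero_add,
        one_mul, one_mul, zero_mul, add_zero] at h3
      exact h3
    have e2 : ∀ y ∈ X, α (act σ y) + β (act σ y) = β y := by
      intro y hy
      have h3 := hbi _ h2 _ hy
      rw [hb _ (stb _ _ h2) _ (stb _ _ hy), hb _ h2 _ hy, hl' _ h2, q1, q2, hq, one_mul,
        one_mul, one_mul, zero_mul, zero_add] at h3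
      exact h3
    have e3 : ∀ y ∈ X, β (act (σ ^ 2) y) = β y + β (act σ y) := by
      intro y hy
      rw [sq, amul, e1 _ (stb _ _ hy), ← e2 y hy, add_assoc, CharTwo.add_self_eq_zero, add_zero]
    refine split_three a1 amul stb σ hkodd hk3 l β hl2 e3 (fun x hx y hy => ?_)
      (fun x hx => ?_) (fun x hx => ?_)
    · rw [hb x hx y hy, hl2 x hx, e3 y hy, e1 y hy, hl' x hx]
      have h4 : ∀ a b c d : ZMod 2, a * c + b * d = a * d + b * c + (a + b) * (d + c) := by decide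
      exact h4 _ _ _ _
    · rw [hKR x hx, hl' x hx]
    · rw [hKU x hx, e1 x hx, and_comm]

theorem split_m2 (a1 : ∀ x, act 1 x = x) (amul : ∀ g h x, act (g * h) x = act g (act h x))
    (aadd : ∀ g x y, act g (x + y) = act g x + act g y)
    (stb : ∀ g, ∀ x ∈ X, act g x ∈ X) (σ : G) (r₀ r₁ u₀ u₁ : V →+ ZMod 2) {b : V → V → ZMod 2}
    {KR KU : V → Prop} (hb : ∀ x ∈ X, ∀ y ∈ X, b x y = r₀ x * u₀ y + r₁ x * u₁ y)
    (hbi : ∀ x ∈ X, ∀ y ∈ X, b (act σ x) (act σ y) = b x y)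
    (ho : ∀ s t : ZMod 2, ∃ x ∈ X, r₀ x = s ∧ r₁ x = t)
    (hk : ∀ x ∈ X, r₀ x = 0 ∧ r₁ x = 0 → r₀ (act σ x) = 0 ∧ r₁ (act σ x) = 0)
    (hKR : ∀ x ∈ X, KR x ↔ r₀ x = 0 ∧ r₁ x = 0) (hKU : ∀ x ∈ X, KU x ↔ u₀ x = 0 ∧ u₁ x = 0)
    (he : Even (orderOf σ) → ∃ x ∈ X, ¬ (r₀ (act (σ ^ (orderOf σ / 2)) x) = r₀ x ∧
      r₁ (act (σ ^ (orderOf σ / 2)) x) = r₁ x))
    (hne : ∃ x ∈ X, r₀ (act σ x) ≠ r₀ x) :
    Nonempty (SpOut act X (Subgroup.zpowers σ) 2 b KR KU) := by
  obtain ⟨x₁, h1, p1, p2⟩ := ho 1 0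
  obtain ⟨x₂, h2, q1, q2⟩ := ho 0 1
  have hf : ∀ x ∈ X, r₀ (act σ x) = r₀ (act σ x₁) * r₀ x + r₀ (act σ x₂) * r₁ x := fun x hx =>
    lin2 (X := X) (f := cact aadd r₀ σ) (fun x hx e e' => (hk x hx ⟨e, e'⟩).1) h1 h2 p1 p2 q1 q2 hx
  have hq : r₀ (act σ x₂) = 1 := by
    rcases z2 (r₀ (act σ x₂)) with e | e
    · exfalso
      obtain ⟨x, hx, hx1⟩ := hne
      have h3 : r₀ (act σ x₁) = 1 := by
        rcases z2 (r₀ (act σ x₁)) with e' | e'
        · exfalso
          -- then `r₀` vanishes after `σ`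
          have h4 : ∀ x ∈ X, r₀ (act σ x) = 0 := fun x hx => by
            rw [hf x hx, e, e', zero_mul, zero_mul, add_zero]
          have h5 := h4 (act (σ⁻¹) x₁) (stb _ _ h1)
          rw [← amul, mul_inv_cancel, a1, p1] at h5
          exact one_ne_zero h5
        · exact e'
      apply hx1
      rw [hf x hx, e, h3, zero_mul, add_zero, one_mul]
    · exact e
  rcases z2 (r₀ (act σ x₁)) with e | e
  · refine split_core a1 amul aadd stb σ r₀ r₁ u₀ u₁ hb hbi (fun x hx => ?_) ho hk hKR hKU he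
    rw [hf x hx, e, hq, zero_mul, zero_add, one_mul]
  · have hl' : ∀ x ∈ X, r₀ (act σ x) = (r₀ + r₁) x := by
      intro x hx
      rw [hf x hx, e, hq, one_mul, one_mul]
      rfl
    have hi : ∀ x, r₀ x = 0 ∧ r₁ x = 0 ↔ r₀ x = 0 ∧ (r₀ + r₁) x = 0 := by
      intro x
      change _ ↔ r₀ x = 0 ∧ r₀ x + r₁ x = 0
      constructor
      · rintro ⟨h, h'⟩
        exact ⟨h, by rw [h, h', add_zero]⟩
      · rintro ⟨h, h'⟩
        exact ⟨h, by rwa [h, zero_add] at h'⟩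
    refine split_core a1 amul aadd stb σ r₀ (r₀ + r₁) (u₀ + u₁) u₁ (fun x hx y hy => ?_) hbi hl' ?_
      ?_ ?_ ?_ ?_
    · rw [hb x hx y hy]
      change _ = r₀ x * (u₀ y + u₁ y) + (r₀ x + r₁ x) * u₁ y
      have h4 : ∀ a b c d : ZMod 2, a * c + b * d = a * (c + d) + (a + b) * d := by decide
      exact h4 _ _ _ _
    · intro s t
      obtain ⟨x, hx, hs, ht⟩ := ho s (s + t)
      refine ⟨x, hx, hs, ?_⟩
      change r₀ x + r₁ x = t
      rw [hs, ht, ← add_assoc, CharTwo.add_self_eq_zero, zero_add]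
    · intro x hx h
      rw [← hi] at h ⊢
      exact hk x hx h
    · intro x hx
      rw [hKR x hx, hi]
    · intro x hx
      rw [hKU x hx]
      change _ ↔ u₀ x + u₁ x = 0 ∧ u₁ x = 0
      constructor
      · rintro ⟨h, h'⟩
        exact ⟨by rw [h, h', add_zero], h'⟩
      · rintro ⟨h, h'⟩
        exact ⟨by rwa [h', add_zero] at h, h'⟩
    · intro hev
      obtain ⟨x, hx, hx1⟩ := he hev
      refine ⟨x, hx, fun h => hx1 ?_⟩
      obtain ⟨g1, g2⟩ := h
      change r₀ (act (σ ^ (orderOf σ / 2)) x) + r₁ (act (σ ^ (orderOf σ / 2)) x) = r₀ x + r₁ x at g2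
      rw [g1] at g2
      exact ⟨g1, add_left_cancel g2⟩

/-- **The algebra at a place.** -/
theorem split_place (a1 : ∀ x, act 1 x = x) (amul : ∀ g h x, act (g * h) x = act g (act h x))
    (aadd : ∀ g x y, act g (x + y) = act g x + act g y)
    (stb : ∀ g, ∀ x ∈ X, act g x ∈ X) (σ : G) {m : ℕ} (hm : m ≤ 2) (r u : Fin m → V →+ ZMod 2)
    {b : V → V → ZMod 2} {KR KU : V → Prop}
    (hb : ∀ x ∈ X, ∀ y ∈ X, b x y = ∑ j, r j x * u j y)
    (hbi : ∀ x ∈ X, ∀ y ∈ X, b (act σ x) (act σ y) = b x y)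
    (ho : ∀ z : Fin m → ZMod 2, ∃ x ∈ X, ∀ j, r j x = z j)
    (hk : ∀ x ∈ X, (∀ j, r j x = 0) → ∀ j, r j (act σ x) = 0)
    (hKR : ∀ x ∈ X, KR x ↔ ∀ j, r j x = 0) (hKU : ∀ x ∈ X, KU x ↔ ∀ j, u j x = 0)
    (he : Even (orderOf σ) → m ≠ 0 → m = 2 ∧ ∃ x ∈ X, ∃ j, r j (act (σ ^ (orderOf σ / 2)) x) ≠ r j x) :
    Nonempty (SpOut act X (Subgroup.zpowers σ) m b KR KU) := by
  by_cases htriv : (∀ x ∈ X, ∀ j, r j (act σ x) = r j x) ∧ m ≠ 0
  · -- trivial action
    obtain ⟨h1, hm0⟩ := htriv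
    have hodd : Odd (orderOf σ) := by
      rw [← Nat.not_even_iff_odd]
      intro hev
      obtain ⟨-, x, hx, j, hj⟩ := he hev hm0
      exact hj (inv_zp a1 amul stb (fun z hz => h1 z hz j) x hx _
        (Subgroup.pow_mem _ (Subgroup.mem_zpowers _) _))
    refine split_one a1 amul stb σ hodd r u h1 (fun y hy j => ?_) hb hKR hKU
    obtain ⟨x, hx, hz⟩ := ho fun i => if i = j then 1 else 0
    have h2 := hbi x hx y hy
    rw [hb _ (stb _ _ hx) _ (stb _ _ hy), hb x hx y hy,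
      Finset.sum_congr rfl fun i _ => by rw [h1 x hx i]] at h2
    rw [Finset.sum_eq_single j, Finset.sum_eq_single j, hz, if_pos rfl, one_mul, one_mul] at h2
    · exact h2
    · intro i _ hi
      rw [hz, if_neg hi, zero_mul]
    · intro h
      exact absurd (Finset.mem_univ _) h
    · intro i _ hi
      rw [hz, if_neg hi, zero_mul]
    · intro h
      exact absurd (Finset.mem_univ _) h
  have hm' : m = 0 ∨ m = 1 ∨ m = 2 := by omega
  rcases hm' with rfl | rfl | rfl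
  · exact split_zero σ stb (fun x hx y hy => by rw [hb x hx y hy, Fin.sum_univ_zero])
      (fun x hx => (hKR x hx).2 fun j => j.elim0) (fun x hx => (hKU x hx).2 fun j => j.elim0)
  · exfalso
    apply htriv
    refine ⟨fun x hx j => ?_, one_ne_zero⟩
    have hj : j = 0 := Subsingleton.elim _ _
    subst hj
    rcases z2 (r 0 x) with e | e
    · rw [e]
      exact hk x hx (fun j => by rw [Subsingleton.elim j 0]; exact e) 0
    · rcases z2 (r 0 (act σ x)) with e' | e'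
      · exfalso
        have h3 := ker_back (K := fun x => ∀ j, r j x = 0) a1 amul stb σ hk hx
          (fun j => by rw [Subsingleton.elim j 0]; exact e') 0
        rw [e] at h3
        exact one_ne_zero h3
      · rw [e, e']
  · have hex : ∃ x ∈ X, ∃ j, r j (act σ x) ≠ r j x := by
      by_contra h
      push Not at h
      exact htriv ⟨h, two_ne_zero⟩
    obtain ⟨x, hx, j, hj⟩ := hex
    have hb' : ∀ x ∈ X, ∀ y ∈ X, b x y = r 0 x * u 0 y + r 1 x * u 1 y := fun x hx y hy => by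
      rw [hb x hx y hy, Fin.sum_univ_two]
    have ho' : ∀ s t : ZMod 2, ∃ x ∈ X, r 0 x = s ∧ r 1 x = t := fun s t => by
      obtain ⟨x, hx, h⟩ := ho ![s, t]
      exact ⟨x, hx, h 0, h 1⟩
    have hall : ∀ P : Fin 2 → Prop, (∀ j, P j) ↔ P 0 ∧ P 1 := fun P => Fin.forall_fin_two
    have hk' : ∀ x ∈ X, r 0 x = 0 ∧ r 1 x = 0 → r 0 (act σ x) = 0 ∧ r 1 (act σ x) = 0 :=
      fun x hx h => (hall _).1 (hk x hx ((hall fun j => r j x = 0).2 h))
    have hKR' : ∀ x ∈ X, KR x ↔ r 0 x = 0 ∧ r 1 x = 0 := fun x hx => by rw [hKR x hx, hall]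
    have hKU' : ∀ x ∈ X, KU x ↔ u 0 x = 0 ∧ u 1 x = 0 := fun x hx => by rw [hKU x hx, hall]
    have he' : Even (orderOf σ) → ∃ x ∈ X, ¬ (r 0 (act (σ ^ (orderOf σ / 2)) x) = r 0 x ∧
      r 1 (act (σ ^ (orderOf σ / 2)) x) = r 1 x) := fun hev => by
      obtain ⟨-, x, hx, j, hj⟩ := he hev two_ne_zero
      refine ⟨x, hx, fun h => hj ?_⟩
      exact (hall fun j => r j (act (σ ^ (orderOf σ / 2)) x) = r j x).2 h j
    have hj' : j = 0 ∨ j = 1 := by
      have h5 : ∀ j : Fin 2, j = 0 ∨ j = 1 := by decide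
      exact h5 j
    rcases hj' with rfl | rfl
    · exact split_m2 a1 amul aadd stb σ (r 0) (r 1) (u 0) (u 1) hb' hbi ho' hk' hKR' hKU' he'
        ⟨x, hx, hj⟩
    · refine split_m2 a1 amul aadd stb σ (r 1) (r 0) (u 1) (u 0) (fun x hx y hy => ?_) hbi
        (fun s t => ?_) (fun x hx h => ?_) (fun x hx => ?_) (fun x hx => ?_) (fun hev => ?_)
        ⟨x, hx, hj⟩
      · rw [hb' x hx y hy, add_comm]
      · obtain ⟨x, hx, h, h'⟩ := ho' t s
        exact ⟨x, hx, h', h⟩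
      · exact (hk' x hx h.symm).symm
      · rw [hKR' x hx, and_comm]
      · rw [hKU' x hx, and_comm]
      · obtain ⟨x, hx, h⟩ := he' hev
        exact ⟨x, hx, fun h' => h h'.symm⟩

end H49GN
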